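import Mathlib

set_option autoImplicit false

open Matrix

namespace Pool.Agent.Burau938

/-- `ζ_d = e^{2πi/d}`. -/
noncomputable def zeta (d : ℕ) : ℂ := Complex.exp (2 * Real.pi * Complex.I / d)

/-- `R_d = ℤ[ζ_d]`. -/
noncomputable def R (d : ℕ) : Subring ℂ := Subring.closure {zeta d}

/-- The reduced Burau matrix of `σ_i` at `t = ζ_d` (indices counted from 0): the row `i` is
`(…, 0, ζ_d, -ζ_d, 1, 0, …)` with `-ζ_d` on the diagonal, the other rows are those of the identity. -/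
noncomputable def sigma (n d : ℕ) (i : Fin (n - 1)) : Matrix (Fin (n - 1)) (Fin (n - 1)) ℂ :=
  fun a b =>
    if a = i then
      (if a = b then -zeta d else if (a : ℕ) + 1 = b then 1 else if (b : ℕ) + 1 = a then zeta d
        else 0)
    else if a = b then 1 else 0

/-- `Γ_{n,d}`: the group generated by the Burau matrices at `t = ζ_d`. -/
noncomputable def Gam (n d : ℕ) : Subgroup (GL (Fin (n - 1)) ℂ) :=
  Subgroup.closure {g | ∃ i, (g : Matrix (Fin (n - 1)) (Fin (n - 1)) ℂ) = sigma n d i}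

/-- The Hermitian matrix `H_{n,d}`. -/
noncomputable def H (n d : ℕ) : Matrix (Fin (n - 1)) (Fin (n - 1)) ℂ :=
  fun a b =>
    if a = b then 2 + zeta d + (zeta d)⁻¹
    else if (a : ℕ) + 1 = b then -(1 + (zeta d)⁻¹)
    else if (b : ℕ) + 1 = a then -(1 + zeta d) else 0

theorem mul_mem_R {n d : ℕ} {A B : Matrix (Fin (n - 1)) (Fin (n - 1)) ℂ}
    (hA : ∀ a b, A a b ∈ R d) (hB : ∀ a b, B a b ∈ R d) (a b : Fin (n - 1)) :
    (A * B) a b ∈ R d := by
  rw [Matrix.mul_apply]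
  exact Subring.sum_mem _ fun c _ => Subring.mul_mem _ (hA a c) (hB c b)

/-- `U_{n,d}`: the matrices in `GL_{n-1}(R_d)` which preserve `H_{n,d}`. -/
noncomputable def U (n d : ℕ) : Subgroup (GL (Fin (n - 1)) ℂ) where
  carrier := {g | (∀ a b, (g : Matrix (Fin (n - 1)) (Fin (n - 1)) ℂ) a b ∈ R d) ∧
    (∀ a b, ((g⁻¹ : GL (Fin (n - 1)) ℂ) : Matrix (Fin (n - 1)) (Fin (n - 1)) ℂ) a b ∈ R d) ∧
    (g : Matrix (Fin (n - 1)) (Fin (n - 1)) ℂ)ᴴ * H n d *
      (g : Matrix (Fin (n - 1)) (Fin (n - 1)) ℂ) = H n d}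
  mul_mem' := by
    rintro g h ⟨g1, g2, g3⟩ ⟨h1, h2, h3⟩
    refine ⟨?_, ?_, ?_⟩
    · intro a b
      rw [Units.val_mul]
      exact mul_mem_R g1 h1 a b
    · intro a b
      rw [_root_.mul_inv_rev, Units.val_mul]
      exact mul_mem_R h2 g2 a b
    · rw [Units.val_mul, Matrix.conjTranspose_mul]
      calc _ = (h : Matrix (Fin (n - 1)) (Fin (n - 1)) ℂ)ᴴ *
            ((g : Matrix (Fin (n - 1)) (Fin (n - 1)) ℂ)ᴴ * H n d *
            (g : Matrix (Fin (n - 1)) (Fin (n - 1)) ℂ)) *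
            (h : Matrix (Fin (n - 1)) (Fin (n - 1)) ℂ) := by
              simp only [Matrix.mul_assoc]
        _ = _ := by rw [g3, h3]
  one_mem' := by
    refine ⟨?_, ?_, ?_⟩
    · intro a b
      rw [Units.val_one, Matrix.one_apply]
      split_ifs
      · exact Subring.one_mem _
      · exact Subring.zero_mem _
    · intro a b
      rw [inv_one, Units.val_one, Matrix.one_apply]
      split_ifs
      · exact Subring.one_mem _
      · exact Subring.zero_mem _
    · rw [Units.val_one]; simp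
  inv_mem' := by
    rintro g ⟨g1, g2, g3⟩
    refine ⟨g2, by rw [inv_inv]; exact g1, ?_⟩
    have e1 : (g : Matrix (Fin (n - 1)) (Fin (n - 1)) ℂ) *
        ((g⁻¹ : GL (Fin (n - 1)) ℂ) : Matrix (Fin (n - 1)) (Fin (n - 1)) ℂ) = 1 := by
      rw [← Units.val_mul, mul_inv_cancel, Units.val_one]
    have e2 : ((g⁻¹ : GL (Fin (n - 1)) ℂ) : Matrix (Fin (n - 1)) (Fin (n - 1)) ℂ)ᴴ *
        (g : Matrix (Fin (n - 1)) (Fin (n - 1)) ℂ)ᴴ = 1 := by
      rw [← Matrix.conjTranspose_mul, e1, Matrix.conjTranspose_one]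
    conv_lhs => rw [← g3]
    calc _ = (((g⁻¹ : GL (Fin (n - 1)) ℂ) : Matrix (Fin (n - 1)) (Fin (n - 1)) ℂ)ᴴ *
        (g : Matrix (Fin (n - 1)) (Fin (n - 1)) ℂ)ᴴ) * H n d *
        ((g : Matrix (Fin (n - 1)) (Fin (n - 1)) ℂ) *
        ((g⁻¹ : GL (Fin (n - 1)) ℂ) : Matrix (Fin (n - 1)) (Fin (n - 1)) ℂ)) := by
          simp only [Matrix.mul_assoc]
      _ = _ := by rw [e1, e2]; simp

/-- The `q`-integer `[m] = 1 + ζ_d + … + ζ_d^{m-1}`. -/
noncomputable def br (d m : ℕ) : ℂ := ∑ k ∈ Finset.range m, zeta d ^ k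

/-- The vector `r = ([1], [2], …, [n-1])`. -/
noncomputable def rad (n d : ℕ) : Fin (n - 1) → ℂ := fun j => br d (j + 1)

theorem zeta_ne (d : ℕ) : zeta d ≠ 0 := Complex.exp_ne_zero _

theorem zeta_mem (d : ℕ) : zeta d ∈ R d := Subring.subset_closure rfl

theorem star_zeta (d : ℕ) : star (zeta d) = (zeta d)⁻¹ := by
  unfold zeta
  rw [← Complex.exp_neg, Complex.star_def, ← Complex.exp_conj]
  congr 1
  simp [Complex.conj_ofReal, map_ofNat]
  ring

theorem zeta_pow (d : ℕ) (hd : d ≠ 0) : zeta d ^ d = 1 :=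
  (Complex.isPrimitiveRoot_exp d hd).pow_eq_one

theorem zeta_inv_mem (d : ℕ) (hd : d ≠ 0) : (zeta d)⁻¹ ∈ R d := by
  have h : (zeta d)⁻¹ = zeta d ^ (d - 1) := by
    have h1 := zeta_pow d hd
    obtain ⟨e, rfl⟩ := Nat.exists_eq_succ_of_ne_zero hd
    rw [Nat.succ_sub_one]
    rw [pow_succ] at h1
    exact inv_eq_of_mul_eq_one_left h1
  rw [h]
  exact Subring.pow_mem _ (zeta_mem d) _

/-- The integral matrix `M` with `H = (1 + ζ⁻¹) M` and `σ_i = 1 - E_ii M`. -/
noncomputable def M (n d : ℕ) : Matrix (Fin (n - 1)) (Fin (n - 1)) ℂ :=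
  fun a b =>
    if a = b then 1 + zeta d
    else if (a : ℕ) + 1 = b then -1
    else if (b : ℕ) + 1 = a then -zeta d else 0

theorem H_eq (n d : ℕ) : H n d = (1 + (zeta d)⁻¹) • M n d := by
  have hz := zeta_ne d
  ext a b
  simp only [H, M, Matrix.smul_apply, smul_eq_mul]
  split_ifs
  · field_simp; ring
  · ring
  · field_simp; ring
  · ring

theorem M_star (n d : ℕ) : (M n d)ᴴ = (zeta d)⁻¹ • M n d := by
  have hz := zeta_ne d
  ext a b
  simp only [M, Matrix.conjTranspose_apply, Matrix.smul_apply, smul_eq_mul]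
  by_cases h1 : a = b
  · subst h1
    simp [star_zeta]
    field_simp
    ring
  · have h1' : b ≠ a := fun h => h1 h.symm
    have h3 : ¬ ((b : ℕ) + 1 = a ∧ (a : ℕ) + 1 = b) := by omega
    by_cases h4 : (b : ℕ) + 1 = a
    · have h5 : ¬ (a : ℕ) + 1 = b := fun h => h3 ⟨h4, h⟩
      simp [h1, h1', h4, h5, hz]
    · by_cases h5 : (a : ℕ) + 1 = b
      · simp [h1, h1', h4, h5, star_zeta]
      · simp [h1, h1', h4, h5]

theorem sigma_eq (n d : ℕ) (i : Fin (n - 1)) :
    sigma n d i = 1 - Matrix.single i i 1 * M n d := by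
  ext a b
  rw [Matrix.sub_apply, Matrix.one_apply]
  by_cases h : a = i
  · subst h
    rw [Matrix.single_mul_apply_same]
    simp only [sigma, M, if_true, one_mul]
    split_ifs <;> ring
  · rw [Matrix.single_mul_apply_of_ne _ _ _ _ _ (by simpa using h)]
    simp only [sigma, if_neg h, sub_zero]

theorem M_mem (n d : ℕ) (a b : Fin (n - 1)) : M n d a b ∈ R d := by
  simp only [M]
  split_ifs
  · exact Subring.add_mem _ (Subring.one_mem _) (zeta_mem d)
  · exact Subring.neg_mem _ (Subring.one_mem _)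
  · exact Subring.neg_mem _ (zeta_mem d)
  · exact Subring.zero_mem _

theorem P_sq (n d : ℕ) (i : Fin (n - 1)) :
    Matrix.single i i 1 * M n d * (Matrix.single i i 1 * M n d) =
      (1 + zeta d) • (Matrix.single i i (1 : ℂ) * M n d) := by
  rw [← Matrix.mul_assoc, Matrix.single_mul_mul_single]
  have : (1 : ℂ) * M n d i i * 1 = (1 + zeta d) := by simp [M]
  rw [this, ← Matrix.smul_mul, Matrix.smul_single, smul_eq_mul, mul_one]

theorem sigma_mul_inv (n d : ℕ) (i : Fin (n - 1)) :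
    sigma n d i * (1 - (zeta d)⁻¹ • (Matrix.single i i (1 : ℂ) * M n d)) = 1 := by
  have hz := zeta_ne d
  rw [sigma_eq, sub_mul, one_mul, mul_sub, mul_one, Matrix.mul_smul, P_sq, smul_smul]
  have : (zeta d)⁻¹ * (1 + zeta d) = (zeta d)⁻¹ + 1 := by field_simp
  rw [this]
  module

theorem sigma_form (n d : ℕ) (i : Fin (n - 1)) :
    (sigma n d i)ᴴ * H n d * sigma n d i = H n d := by
  have hz := zeta_ne d
  have hE : (Matrix.single i i (1 : ℂ))ᴴ = Matrix.single i i (1 : ℂ) := by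
    rw [Matrix.conjTranspose_single, star_one]
  have h1 : (sigma n d i)ᴴ = 1 - (zeta d)⁻¹ • (M n d * Matrix.single i i 1) := by
    rw [sigma_eq, Matrix.conjTranspose_sub, Matrix.conjTranspose_one, Matrix.conjTranspose_mul,
      hE, M_star, Matrix.smul_mul]
  rw [h1, H_eq, sigma_eq, Matrix.mul_smul, Matrix.smul_mul]
  congr 1
  have h2 : (M n d * Matrix.single i i 1) * M n d * (Matrix.single i i 1 * M n d) =
      (1 + zeta d) • (M n d * Matrix.single i i (1 : ℂ) * M n d) := by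
    rw [Matrix.mul_assoc (M n d), Matrix.mul_assoc (M n d), P_sq, Matrix.mul_smul]
  rw [sub_mul, one_mul, mul_sub, mul_one, Matrix.smul_mul, sub_mul, Matrix.smul_mul, h2, smul_smul]
  have h3 : (zeta d)⁻¹ * (1 + zeta d) = (zeta d)⁻¹ + 1 := by field_simp
  rw [h3, Matrix.mul_assoc (M n d) (Matrix.single i i 1) (M n d)]
  module

theorem sigma_mem (n d : ℕ) (i a b : Fin (n - 1)) : sigma n d i a b ∈ R d := by
  simp only [sigma]
  split_ifs
  · exact Subring.neg_mem _ (zeta_mem d)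
  · exact Subring.one_mem _
  · exact zeta_mem d
  · exact Subring.zero_mem _
  · exact Subring.one_mem _
  · exact Subring.zero_mem _

theorem one_mem_R (n d : ℕ) (a b : Fin (n - 1)) :
    (1 : Matrix (Fin (n - 1)) (Fin (n - 1)) ℂ) a b ∈ R d := by
  rw [Matrix.one_apply]
  split_ifs
  · exact Subring.one_mem _
  · exact Subring.zero_mem _

theorem single_mem_R (n d : ℕ) (i a b : Fin (n - 1)) :
    (Matrix.single i i 1 : Matrix (Fin (n - 1)) (Fin (n - 1)) ℂ) a b ∈ R d := by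
  rw [Matrix.single_apply]
  split_ifs
  · exact Subring.one_mem _
  · exact Subring.zero_mem _

/-- The generator `σ_i` as an element of `GL`. -/
noncomputable def sig (n d : ℕ) (i : Fin (n - 1)) : GL (Fin (n - 1)) ℂ where
  val := sigma n d i
  inv := 1 - (zeta d)⁻¹ • (Matrix.single i i (1 : ℂ) * M n d)
  val_inv := sigma_mul_inv n d i
  inv_val := by
    have hz := zeta_ne d
    rw [sigma_eq, mul_sub, mul_one, sub_mul, one_mul, Matrix.smul_mul, P_sq, smul_smul]
    have : (zeta d)⁻¹ * (1 + zeta d) = (zeta d)⁻¹ + 1 := by field_simp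
    rw [this]
    module

theorem sig_mem (n d : ℕ) (i : Fin (n - 1)) : sig n d i ∈ Gam n d :=
  Subgroup.subset_closure ⟨i, rfl⟩

theorem sig_mem_U (n d : ℕ) (hd : d ≠ 0) (i : Fin (n - 1)) : sig n d i ∈ U n d := by
  refine ⟨fun a b => sigma_mem n d i a b, fun a b => ?_, sigma_form n d i⟩
  show (1 - (zeta d)⁻¹ • (Matrix.single i i (1 : ℂ) * M n d)) a b ∈ R d
  rw [Matrix.sub_apply, Matrix.smul_apply, smul_eq_mul]
  exact Subring.sub_mem _ (one_mem_R n d a b) (Subring.mul_mem _ (zeta_inv_mem d hd)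
    (mul_mem_R (fun a b => single_mem_R n d i a b) (fun a b => M_mem n d a b) a b))

theorem gam_le (n d : ℕ) (hd : d ≠ 0) (g : GL (Fin (n - 1)) ℂ) (hg : g ∈ Gam n d) :
    g ∈ U n d ∧ ∃ A : Matrix (Fin (n - 1)) (Fin (n - 1)) ℂ, (∀ a b, A a b ∈ R d) ∧
      (g : Matrix (Fin (n - 1)) (Fin (n - 1)) ℂ) = 1 + A * M n d := by
  refine Subgroup.closure_induction (p := fun g _ => g ∈ U n d ∧
    ∃ A : Matrix (Fin (n - 1)) (Fin (n - 1)) ℂ, (∀ a b, A a b ∈ R d) ∧
      (g : Matrix (Fin (n - 1)) (Fin (n - 1)) ℂ) = 1 + A * M n d) ?_ ?_ ?_ ?_ hg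
  · rintro g ⟨i, hi⟩
    have hgi : g = sig n d i := Units.ext hi
    refine ⟨hgi ▸ sig_mem_U n d hd i, -Matrix.single i i 1, fun a b => ?_, ?_⟩
    · rw [Matrix.neg_apply]
      exact Subring.neg_mem _ (single_mem_R n d i a b)
    · rw [hi, sigma_eq, Matrix.neg_mul, sub_eq_add_neg]
  · refine ⟨Subgroup.one_mem _, 0, fun a b => Subring.zero_mem _, ?_⟩
    rw [Units.val_one, zero_mul, add_zero]
  · rintro g h - - ⟨gU, A, hA, gA⟩ ⟨hU, B, hB, hBe⟩
    refine ⟨Subgroup.mul_mem _ gU hU, A + B + A * M n d * B, fun a b => ?_, ?_⟩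
    · rw [Matrix.add_apply, Matrix.add_apply]
      exact Subring.add_mem _ (Subring.add_mem _ (hA a b) (hB a b))
        (mul_mem_R (fun a b => mul_mem_R hA (fun a b => M_mem n d a b) a b) hB a b)
    · rw [Units.val_mul, gA, hBe]
      noncomm_ring
  · rintro g - ⟨gU, A, hA, gA⟩
    refine ⟨Subgroup.inv_mem _ gU,
      -((g⁻¹ : GL (Fin (n - 1)) ℂ) : Matrix (Fin (n - 1)) (Fin (n - 1)) ℂ) * A, fun a b => ?_, ?_⟩
    · rw [Matrix.neg_mul, Matrix.neg_apply]
      exact Subring.neg_mem _ (mul_mem_R gU.2.1 hA a b)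
    · have e1 : ((g⁻¹ : GL (Fin (n - 1)) ℂ) : Matrix (Fin (n - 1)) (Fin (n - 1)) ℂ) *
          (g : Matrix (Fin (n - 1)) (Fin (n - 1)) ℂ) = 1 := by
        rw [← Units.val_mul, inv_mul_cancel, Units.val_one]
      rw [gA, mul_add, mul_one] at e1
      rw [Matrix.neg_mul, Matrix.neg_mul, Matrix.mul_assoc, ← sub_eq_add_neg]
      exact eq_sub_of_add_eq e1

theorem br_succ (d m : ℕ) : br d (m + 1) = 1 + zeta d * br d m := by
  unfold br
  rw [Finset.sum_range_succ', pow_zero, Finset.mul_sum, add_comm]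
  congr 1
  exact Finset.sum_congr rfl fun k _ => by rw [pow_succ]; ring

theorem br_zero (d : ℕ) : br d 0 = 0 := by simp [br]

theorem M_rad (n d : ℕ) (hn : 3 ≤ n) (a : Fin (n - 1)) :
    (M n d *ᵥ rad n d) a = br d n * (if (a : ℕ) + 1 = n - 1 then 1 else 0) := by
  have h1 : (M n d *ᵥ rad n d) a = ∑ b : Fin (n - 1), (fun b : ℕ =>
      (if (a : ℕ) = b then (1 + zeta d) * br d (b + 1) else 0) -
      (if (a : ℕ) + 1 = b then br d (b + 1) else 0) -
      (if (a : ℕ) = b + 1 then zeta d * br d (b + 1) else 0)) (b : ℕ) := by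
    rw [Matrix.mulVec, dotProduct]
    refine Finset.sum_congr rfl fun b _ => ?_
    simp only [M, rad, Fin.ext_iff]
    by_cases h1 : (a : ℕ) = b
    · have h2 : ¬ (a : ℕ) + 1 = b := by omega
      have h3 : ¬ (a : ℕ) = (b : ℕ) + 1 := by omega
      rw [if_pos h1, if_pos h1, if_neg h2, if_neg h3]; ring
    · by_cases h2 : (a : ℕ) + 1 = b
      · have h3 : ¬ (a : ℕ) = (b : ℕ) + 1 := by omega
        rw [if_neg h1, if_pos h2, if_neg h1, if_pos h2, if_neg h3]; ring
      · by_cases h3 : (a : ℕ) = (b : ℕ) + 1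
        · rw [if_neg h1, if_neg h2, if_pos h3.symm, if_neg h1, if_neg h2, if_pos h3]; ring
        · have h3' : ¬ (b : ℕ) + 1 = a := fun h => h3 h.symm
          rw [if_neg h1, if_neg h2, if_neg h3', if_neg h1, if_neg h2, if_neg h3]; ring
  rw [h1, Fin.sum_univ_eq_sum_range (fun b : ℕ =>
      (if (a : ℕ) = b then (1 + zeta d) * br d (b + 1) else 0) -
      (if (a : ℕ) + 1 = b then br d (b + 1) else 0) -
      (if (a : ℕ) = b + 1 then zeta d * br d (b + 1) else 0)) (n - 1),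
    Finset.sum_sub_distrib, Finset.sum_sub_distrib, Finset.sum_ite_eq, Finset.sum_ite_eq]
  have h3 : ∑ b ∈ Finset.range (n - 1), (if (a : ℕ) = b + 1 then zeta d * br d (b + 1) else 0) =
      zeta d * br d a := by
    rcases Nat.eq_zero_or_pos (a : ℕ) with h0 | h0
    · rw [h0, br_zero, mul_zero]
      exact Finset.sum_eq_zero fun b _ => if_neg (by omega)
    · obtain ⟨c, hc⟩ := Nat.exists_eq_succ_of_ne_zero h0.ne'
      rw [hc]
      have ha := a.2
      have : ∀ b : ℕ, (c.succ = b + 1) ↔ (c = b) := fun b => by omega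
      simp only [this]
      rw [Finset.sum_ite_eq, if_pos (Finset.mem_range.2 (by omega))]
  rw [h3, if_pos (Finset.mem_range.2 a.2)]
  by_cases h : (a : ℕ) + 1 = n - 1
  · rw [if_pos h, if_neg (by rw [Finset.mem_range]; omega)]
    have hn1 : n = (a : ℕ) + 1 + 1 := by omega
    conv_rhs => rw [hn1]
    rw [br_succ d ((a : ℕ) + 1), br_succ d (a : ℕ)]
    ring
  · rw [if_neg h, if_pos (by rw [Finset.mem_range]; have := a.2; omega)]
    rw [br_succ d ((a : ℕ) + 1), br_succ d (a : ℕ)]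
    ring

theorem congr_rad (n d : ℕ) (hn : 3 ≤ n) (hd : d ≠ 0) (g : GL (Fin (n - 1)) ℂ)
    (hg : g ∈ Gam n d) (j : Fin (n - 1)) :
    ∃ y ∈ R d, ((g : Matrix (Fin (n - 1)) (Fin (n - 1)) ℂ) *ᵥ rad n d) j - rad n d j =
      br d n * y := by
  obtain ⟨-, A, hA, gA⟩ := gam_le n d hd g hg
  refine ⟨∑ a, A j a * (if (a : ℕ) + 1 = n - 1 then 1 else 0),
    Subring.sum_mem _ fun a _ => Subring.mul_mem _ (hA j a) ?_, ?_⟩
  · split_ifs
    · exact Subring.one_mem _
    · exact Subring.zero_mem _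
  · rw [gA, Matrix.add_mulVec, Matrix.one_mulVec, Pi.add_apply, add_sub_cancel_left,
      ← Matrix.mulVec_mulVec, Matrix.mulVec, dotProduct, Finset.mul_sum]
    refine Finset.sum_congr rfl fun a _ => ?_
    rw [M_rad n d hn a]
    ring

/-! ### The case `n = 3`, `d = 3` -/

theorem om_sq : zeta 3 ^ 2 + zeta 3 + 1 = 0 := by
  have h := (Complex.isPrimitiveRoot_exp 3 (by norm_num)).geom_sum_eq_zero (by norm_num)
  have h2 : Complex.exp (2 * Real.pi * Complex.I / ((3 : ℕ) : ℂ)) = zeta 3 := rfl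
  rw [h2] at h
  simp only [Finset.sum_range_succ, Finset.sum_range_zero, pow_zero, pow_one] at h
  linear_combination h

theorem om_inv : (zeta 3)⁻¹ = -1 - zeta 3 := by
  apply inv_eq_of_mul_eq_one_left
  linear_combination -om_sq

theorem om_star : star (zeta 3) = -1 - zeta 3 := by rw [star_zeta, om_inv]

theorem R3 (z : ℂ) (hz : z ∈ R 3) : ∃ x y : ℤ, z = x + y * zeta 3 := by
  refine Subring.closure_induction (p := fun z _ => ∃ x y : ℤ, z = x + y * zeta 3)
    ?_ ?_ ?_ ?_ ?_ ?_ hz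
  · rintro z hz
    rw [Set.mem_singleton_iff] at hz
    exact ⟨0, 1, by rw [hz]; push_cast; ring⟩
  · exact ⟨0, 0, by push_cast; ring⟩
  · exact ⟨1, 0, by push_cast; ring⟩
  · rintro a b - - ⟨x, y, rfl⟩ ⟨u, v, rfl⟩
    exact ⟨x + u, y + v, by push_cast; ring⟩
  · rintro a - ⟨x, y, rfl⟩
    exact ⟨-x, -y, by push_cast; ring⟩
  · rintro a b - - ⟨x, y, rfl⟩ ⟨u, v, rfl⟩
    exact ⟨x * u - y * v, x * v + y * u - y * v, by
      push_cast
      linear_combination ((y : ℂ) * v) * om_sq⟩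

theorem star_R3 (x y : ℤ) : star ((x : ℂ) + y * zeta 3) = x + y * (-1 - zeta 3) := by
  rw [star_add, star_mul', om_star]
  simp

/-- The sixth roots of unity. -/
def Mu (a : ℂ) : Prop :=
  a = 1 ∨ a = -1 ∨ a = zeta 3 ∨ a = -zeta 3 ∨ a = 1 + zeta 3 ∨ a = -(1 + zeta 3)

theorem mu_of_norm (x y : ℤ) (h : x * x - x * y + y * y = 1) :
    Mu ((x : ℂ) + y * zeta 3) := by
  have hy1 : y ≤ 1 := by nlinarith [sq_nonneg (2 * x - y)]
  have hy2 : -1 ≤ y := by nlinarith [sq_nonneg (2 * x - y)]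
  have hx1 : x ≤ 1 := by nlinarith [sq_nonneg (2 * y - x)]
  have hx2 : -1 ≤ x := by nlinarith [sq_nonneg (2 * y - x)]
  unfold Mu
  interval_cases x <;> interval_cases y <;> simp at h ⊢
  right; right; right; right; ring

theorem mu_of_star (a : ℂ) (ha : a ∈ R 3) (h : star a * a = 1) : Mu a := by
  obtain ⟨x, y, rfl⟩ := R3 a ha
  apply mu_of_norm
  rw [star_R3] at h
  have h2 : ((x * x - x * y + y * y : ℤ) : ℂ) = ((1 : ℤ) : ℂ) := by
    push_cast
    linear_combination h + ((y : ℂ) * y) * om_sq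
  exact_mod_cast h2

theorem mu_of_unit (a b : ℂ) (ha : a ∈ R 3) (hb : b ∈ R 3) (h : a * b = 1) : Mu a := by
  obtain ⟨x, y, rfl⟩ := R3 a ha
  obtain ⟨u, v, rfl⟩ := R3 b hb
  apply mu_of_norm
  have h1 : star ((x : ℂ) + y * zeta 3) * star ((u : ℂ) + v * zeta 3) = 1 := by
    rw [← star_mul', h, star_one]
  rw [star_R3, star_R3] at h1
  have h2 : (((x * x - x * y + y * y) * (u * u - u * v + v * v) : ℤ) : ℂ) = ((1 : ℤ) : ℂ) := by
    push_cast
    have h3 : ((x : ℂ) * x - x * y + y * y) =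
        ((x : ℂ) + y * zeta 3) * (x + y * (-1 - zeta 3)) := by
      linear_combination ((y : ℂ) * y) * om_sq
    have h4 : ((u : ℂ) * u - u * v + v * v) =
        ((u : ℂ) + v * zeta 3) * (u + v * (-1 - zeta 3)) := by
      linear_combination ((v : ℂ) * v) * om_sq
    rw [h3, h4]
    calc _ = (((x : ℂ) + y * zeta 3) * ((u : ℂ) + v * zeta 3)) *
        (((x : ℂ) + y * (-1 - zeta 3)) * ((u : ℂ) + v * (-1 - zeta 3))) := by ring
      _ = 1 := by rw [h, h1, one_mul]
  have h5 : (x * x - x * y + y * y) * (u * u - u * v + v * v) = 1 := by exact_mod_cast h2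
  have h6 : 0 ≤ x * x - x * y + y * y := by nlinarith [sq_nonneg (2 * x - y), sq_nonneg y]
  rcases Int.eq_one_or_neg_one_of_mul_eq_one h5 with h7 | h7
  · exact h7
  · rw [h7] at h6; norm_num at h6

/-- Normal form of the elements of `Γ_{3,3}`. -/
noncomputable def G (a q : ℂ) : Matrix (Fin (3 - 1)) (Fin (3 - 1)) ℂ :=
  !![a - zeta 3 * q, zeta 3 * a - zeta 3 - zeta 3 ^ 2 * q; q, 1 + zeta 3 * q]

theorem G_mul (a q b s : ℂ) : G a q * G b s = G (a * b) (b * q + s) := by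
  ext i j
  fin_cases i <;> fin_cases j
  · simp [G, Matrix.mul_apply, Fin.sum_univ_two]
    linear_combination (0 : ℂ) * om_sq
  · simp [G, Matrix.mul_apply, Fin.sum_univ_two]
    linear_combination (0 : ℂ) * om_sq
  · simp [G, Matrix.mul_apply, Fin.sum_univ_two]
    linear_combination (0 : ℂ) * om_sq
  · simp [G, Matrix.mul_apply, Fin.sum_univ_two]
    linear_combination (0 : ℂ) * om_sq

theorem rad33 : rad 3 3 = ![1, 1 + zeta 3] := by
  ext i
  fin_cases i <;> simp [rad, br, Finset.sum_range_succ]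

theorem G_sig0 : (sig 3 3 0 : Matrix (Fin (3 - 1)) (Fin (3 - 1)) ℂ) = G (-zeta 3) 0 := by
  show sigma 3 3 0 = _
  ext i j
  fin_cases i <;> fin_cases j <;> simp [sigma, G]
  linear_combination om_sq

theorem G_sig1 : (sig 3 3 1 : Matrix (Fin (3 - 1)) (Fin (3 - 1)) ℂ) = G (-zeta 3) (zeta 3) := by
  show sigma 3 3 1 = _
  have h := om_sq
  ext i j
  fin_cases i <;> fin_cases j <;> simp [sigma, G]
  · linear_combination om_sq
  · linear_combination zeta 3 * om_sq
  · linear_combination -om_sq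

/-- `G a q` is the matrix of an element of `Γ_{3,3}`. -/
def S (a q : ℂ) : Prop :=
  ∃ γ ∈ Gam 3 3, (γ : Matrix (Fin (3 - 1)) (Fin (3 - 1)) ℂ) = G a q

theorem S_mul {a q b s : ℂ} (h1 : S a q) (h2 : S b s) : S (a * b) (b * q + s) := by
  obtain ⟨γ, hγ, e⟩ := h1
  obtain ⟨δ, hδ, f⟩ := h2
  exact ⟨γ * δ, Subgroup.mul_mem _ hγ hδ, by rw [Units.val_mul, e, f, G_mul]⟩

theorem S_cast {a q b s : ℂ} (h : S a q) (h1 : a = b) (h2 : q = s) : S b s := by
  subst h1; subst h2; exact h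

theorem s1 : S (-zeta 3) 0 := ⟨sig 3 3 0, sig_mem 3 3 0, G_sig0⟩

theorem s1' : S (-zeta 3) (zeta 3) := ⟨sig 3 3 1, sig_mem 3 3 1, G_sig1⟩

theorem s2 : S (-(1 + zeta 3)) 0 :=
  S_cast (S_mul s1 s1) (by linear_combination om_sq) (by ring)

theorem s3 : S (-1) 0 := S_cast (S_mul s1 s2) (by linear_combination om_sq) (by ring)

theorem s4 : S (zeta 3) 0 := S_cast (S_mul s1 s3) (by ring) (by ring)

theorem s5 : S (1 + zeta 3) 0 := S_cast (S_mul s3 s2) (by ring) (by ring)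

theorem s6 : S 1 0 := S_cast (S_mul s3 s3) (by ring) (by ring)

theorem S_mu (a : ℂ) (ha : Mu a) : S a 0 := by
  rcases ha with rfl | rfl | rfl | rfl | rfl | rfl
  · exact s6
  · exact s3
  · exact s4
  · exact s1
  · exact s5
  · exact s2

/-- The translations in `Γ_{3,3}`. -/
def T : AddSubgroup ℂ where
  carrier := {q | S 1 q}
  zero_mem' := s6
  add_mem' := fun {a b} (ha : S 1 a) (hb : S 1 b) =>
    S_cast (S_mul ha hb) (by ring) (by ring)
  neg_mem' := fun {a} (ha : S 1 a) =>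
    S_cast (S_mul (S_mul s3 ha) s3) (by ring) (by ring)

theorem om_mem_T : zeta 3 ∈ T := S_cast (S_mul s5 s1') (by linear_combination -om_sq) (by ring)

theorem one_mem_T : (1 : ℂ) ∈ T := by
  have h : S 1 (zeta 3) := om_mem_T
  exact S_cast (S_mul (S_mul s4 h) s2) (by linear_combination -om_sq)
    (by linear_combination -om_sq)

theorem S_all (a q : ℂ) (ha : Mu a) (hq : q ∈ R 3) : S a q := by
  obtain ⟨x, y, rfl⟩ := R3 q hq
  have h : ((x : ℂ) + y * zeta 3) ∈ T := by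
    have h1 := T.zsmul_mem one_mem_T x
    have h2 := T.zsmul_mem om_mem_T y
    rw [zsmul_eq_mul] at h1 h2
    rw [mul_one] at h1
    exact T.add_mem h1 h2
  have h3 : S 1 ((x : ℂ) + y * zeta 3) := h
  exact S_cast (S_mul (S_mu a ha) h3) (by ring) (by ring)

theorem H33 : H 3 3 = (!![1, zeta 3; -1 - zeta 3, 1] : Matrix (Fin (3 - 1)) (Fin (3 - 1)) ℂ) := by
  ext i j
  fin_cases i <;> fin_cases j <;> simp [H, om_inv] <;> ring

theorem mem_of (g : GL (Fin (3 - 1)) ℂ) (hU : g ∈ U 3 3)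
    (hr : (g : Matrix (Fin (3 - 1)) (Fin (3 - 1)) ℂ) *ᵥ rad 3 3 = rad 3 3) : g ∈ Gam 3 3 := by
  obtain ⟨h1, -, h3⟩ := hU
  set A : Matrix (Fin (3 - 1)) (Fin (3 - 1)) ℂ := (g : Matrix (Fin (3 - 1)) (Fin (3 - 1)) ℂ)
    with hA
  have e00 := congrFun (congrFun h3 0) 0
  have r0 := congrFun hr 0
  have r1 := congrFun hr 1
  rw [rad33] at r0 r1
  rw [H33] at e00
  simp [Matrix.mulVec, dotProduct, Fin.sum_univ_two] at r0 r1
  simp [Matrix.mul_apply, Fin.sum_univ_two] at e00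
  have ha : star (A 0 0 + zeta 3 * A 1 0) * (A 0 0 + zeta 3 * A 1 0) = 1 := by
    rw [star_add, star_mul', om_star]
    simp only [Complex.star_def]
    linear_combination e00 - (starRingEnd ℂ (A 1 0) * A 1 0) * om_sq
  have hmu := mu_of_star _ (Subring.add_mem _ (h1 0 0) (Subring.mul_mem _ (zeta_mem 3) (h1 1 0))) ha
  obtain ⟨γ, hγ, e⟩ := S_all _ _ hmu (h1 1 0)
  have : g = γ := by
    apply Units.ext
    rw [e]
    ext i j
    fin_cases i <;> fin_cases j
    · show A 0 0 = (A 0 0 + zeta 3 * A 1 0) - zeta 3 * A 1 0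
      ring
    · show A 0 1 = zeta 3 * (A 0 0 + zeta 3 * A 1 0) - zeta 3 - zeta 3 ^ 2 * A 1 0
      linear_combination (-zeta 3) * r0 + (A 0 1) * om_sq
    · rfl
    · show A 1 1 = 1 + zeta 3 * A 1 0
      linear_combination (-zeta 3) * r1 + (A 1 1 - 1) * om_sq
  rw [this]
  exact hγ

theorem rad_ker : H 3 3 *ᵥ rad 3 3 = 0 := by
  rw [rad33, H33]
  ext i
  fin_cases i <;> simp [Matrix.mulVec, dotProduct, Fin.sum_univ_two] <;> linear_combination om_sq

/-- Elements of `U_{3,3}` multiply the radical vector by a scalar. -/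
theorem U_rad (g : GL (Fin (3 - 1)) ℂ) (hU : g ∈ U 3 3) :
    (g : Matrix (Fin (3 - 1)) (Fin (3 - 1)) ℂ) *ᵥ rad 3 3 =
      ((g : Matrix (Fin (3 - 1)) (Fin (3 - 1)) ℂ) *ᵥ rad 3 3) 0 • rad 3 3 := by
  obtain ⟨-, -, h3⟩ := hU
  set A : Matrix (Fin (3 - 1)) (Fin (3 - 1)) ℂ := (g : Matrix (Fin (3 - 1)) (Fin (3 - 1)) ℂ)
    with hA
  have hinv : ((g⁻¹ : GL (Fin (3 - 1)) ℂ) : Matrix (Fin (3 - 1)) (Fin (3 - 1)) ℂ)ᴴ * Aᴴ = 1 := by
    rw [← Matrix.conjTranspose_mul, hA, ← Units.val_mul, mul_inv_cancel, Units.val_one,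
      Matrix.conjTranspose_one]
  have h4 : H 3 3 *ᵥ (A *ᵥ rad 3 3) = 0 := by
    have h5 : H 3 3 * A =
        ((g⁻¹ : GL (Fin (3 - 1)) ℂ) : Matrix (Fin (3 - 1)) (Fin (3 - 1)) ℂ)ᴴ * H 3 3 := by
      conv_rhs => rw [← h3]
      rw [← Matrix.mul_assoc, ← Matrix.mul_assoc, hinv, Matrix.one_mul]
    rw [Matrix.mulVec_mulVec, h5, ← Matrix.mulVec_mulVec, rad_ker, Matrix.mulVec_zero]
  set v := A *ᵥ rad 3 3 with hv
  have h6 := congrFun h4 0
  rw [H33] at h6
  simp [Matrix.mulVec, dotProduct, Fin.sum_univ_two] at h6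
  ext i
  fin_cases i
  · show v 0 = v 0 * rad 3 3 0
    rw [rad33]; simp
  · show v 1 = v 0 * rad 3 3 1
    rw [rad33]
    show v 1 = v 0 * (1 + zeta 3)
    linear_combination (-1 - zeta 3) * h6 + v 1 * om_sq

/-- The scalar by which an element of `U_{3,3}` acts on the radical. -/
noncomputable def chi : U 3 3 →* ℂ where
  toFun g := ((g : GL (Fin (3 - 1)) ℂ).1 *ᵥ rad 3 3) 0
  map_one' := by
    show ((1 : Matrix (Fin (3 - 1)) (Fin (3 - 1)) ℂ) *ᵥ rad 3 3) 0 = 1
    rw [Matrix.one_mulVec, rad33]; rfl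
  map_mul' := by
    intro g h
    show (((g : GL (Fin (3 - 1)) ℂ).1 * (h : GL (Fin (3 - 1)) ℂ).1) *ᵥ rad 3 3) 0 = _
    rw [← Matrix.mulVec_mulVec, U_rad h.1 h.2, Matrix.mulVec_smul, U_rad g.1 g.2]
    simp only [Pi.smul_apply, smul_eq_mul]
    rw [rad33]
    simp
    ring

theorem chi_mem (g : U 3 3) : chi g ∈ R 3 := by
  show ((g : GL (Fin (3 - 1)) ℂ).1 *ᵥ rad 3 3) 0 ∈ R 3
  rw [Matrix.mulVec, dotProduct]
  refine Subring.sum_mem _ fun c _ => Subring.mul_mem _ (g.2.1 0 c) ?_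
  rw [rad33]
  fin_cases c
  · exact Subring.one_mem _
  · exact Subring.add_mem _ (Subring.one_mem _) (zeta_mem 3)

theorem chi_mu (g : U 3 3) : Mu (chi g) :=
  mu_of_unit _ _ (chi_mem g) (chi_mem g⁻¹) (by rw [← map_mul, mul_inv_cancel, map_one])

theorem mu_pow (a : ℂ) (ha : Mu a) : a ^ 6 = 1 := by
  have h := om_sq
  have h3 : zeta 3 ^ 3 = 1 := zeta_pow 3 (by norm_num)
  have h2 : 1 + zeta 3 = - zeta 3 ^ 2 := by linear_combination h
  rcases ha with rfl | rfl | rfl | rfl | rfl | rfl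
  · norm_num
  · norm_num
  · linear_combination (zeta 3 ^ 3 + 1) * h3
  · linear_combination (zeta 3 ^ 3 + 1) * h3
  · rw [h2]
    linear_combination (zeta 3 ^ 9 + zeta 3 ^ 6 + zeta 3 ^ 3 + 1) * h3
  · rw [h2]
    linear_combination (zeta 3 ^ 9 + zeta 3 ^ 6 + zeta 3 ^ 3 + 1) * h3

theorem mu_of_pow (a : ℂ) (ha : a ^ 6 = 1) : Mu a := by
  have h : (a - 1) * ((a + 1) * ((a - zeta 3) * ((a + zeta 3) * ((a - (1 + zeta 3)) *
      (a + (1 + zeta 3)))))) = 0 := by
    have h1 : (a - zeta 3) * (a + (1 + zeta 3)) = a ^ 2 + a + 1 := by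
      linear_combination -om_sq
    have h2 : (a + zeta 3) * (a - (1 + zeta 3)) = a ^ 2 - a + 1 := by
      linear_combination -om_sq
    calc _ = (a - 1) * (a + 1) * ((a - zeta 3) * (a + (1 + zeta 3))) *
          ((a + zeta 3) * (a - (1 + zeta 3))) := by ring
      _ = 0 := by rw [h1, h2]; linear_combination ha
  unfold Mu
  simp only [mul_eq_zero, sub_eq_zero, add_eq_zero_iff_eq_neg] at h
  tauto

theorem mu_star (a : ℂ) (ha : Mu a) : star a * a = 1 := by
  rcases ha with rfl | rfl | rfl | rfl | rfl | rfl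
  · simp
  · simp
  · rw [om_star]; linear_combination -om_sq
  · rw [star_neg, om_star]; linear_combination -om_sq
  · rw [star_add, star_one, om_star]; linear_combination -om_sq
  · rw [star_neg, star_add, star_one, om_star]; linear_combination -om_sq

theorem mu_mem (a : ℂ) (ha : Mu a) : a ∈ R 3 := by
  have h1 := zeta_mem 3
  have h2 := Subring.one_mem (R 3)
  rcases ha with rfl | rfl | rfl | rfl | rfl | rfl
  · exact h2
  · exact Subring.neg_mem _ h2
  · exact h1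
  · exact Subring.neg_mem _ h1
  · exact Subring.add_mem _ h2 h1
  · exact Subring.neg_mem _ (Subring.add_mem _ h2 h1)

theorem scalar_mem (u : ℂˣ) (hu : (u : ℂ) ^ 6 = 1) :
    ∃ g ∈ U 3 3, (g : Matrix (Fin (3 - 1)) (Fin (3 - 1)) ℂ) = (u : ℂ) • 1 := by
  have hmu := mu_of_pow _ hu
  have hmu' : Mu ((u⁻¹ : ℂˣ) : ℂ) := mu_of_pow _ (by
    rw [← Units.val_pow_eq_pow_val, inv_pow]
    have : u ^ 6 = 1 := Units.ext (by rw [Units.val_pow_eq_pow_val]; exact hu)
    rw [this]; simp)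
  have hdiag : ∀ a b : Fin (3 - 1), ∀ w : ℂ, Mu w →
      (w • (1 : Matrix (Fin (3 - 1)) (Fin (3 - 1)) ℂ)) a b ∈ R 3 := by
    intro a b w hw
    rw [Matrix.smul_apply, smul_eq_mul]
    exact Subring.mul_mem _ (mu_mem w hw) (one_mem_R 3 3 a b)
  refine ⟨⟨(u : ℂ) • 1, ((u⁻¹ : ℂˣ) : ℂ) • 1, ?_, ?_⟩, ⟨?_, ?_, ?_⟩, rfl⟩
  · rw [Matrix.smul_mul, Matrix.one_mul, smul_smul, Units.mul_inv, one_smul]
  · rw [Matrix.smul_mul, Matrix.one_mul, smul_smul, Units.inv_mul, one_smul]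
  · exact fun a b => hdiag a b _ hmu
  · exact fun a b => hdiag a b _ hmu'
  · show ((u : ℂ) • (1 : Matrix (Fin (3 - 1)) (Fin (3 - 1)) ℂ))ᴴ * H 3 3 *
      ((u : ℂ) • (1 : Matrix (Fin (3 - 1)) (Fin (3 - 1)) ℂ)) = H 3 3
    rw [Matrix.conjTranspose_smul, Matrix.conjTranspose_one, Matrix.smul_mul, Matrix.one_mul,
      Matrix.mul_smul, Matrix.mul_one, smul_smul, mul_comm, mu_star _ hmu, one_smul]

theorem index_six : (Gam 3 3).relIndex (U 3 3) = 6 := by
  have hker : (Gam 3 3).subgroupOf (U 3 3) = (chi.toHomUnits).ker := by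
    ext g
    rw [Subgroup.mem_subgroupOf, MonoidHom.mem_ker]
    constructor
    · intro hg
      apply Units.ext
      show ((g : GL (Fin (3 - 1)) ℂ).1 *ᵥ rad 3 3) 0 = 1
      obtain ⟨y, -, hy⟩ := congr_rad 3 3 le_rfl (by norm_num) g.1 hg 0
      have h0 : br 3 3 = 0 := by
        simp [br, Finset.sum_range_succ]
        linear_combination om_sq
      have h1 : rad 3 3 0 = 1 := by rw [rad33]; rfl
      rw [h0, zero_mul, h1] at hy
      exact sub_eq_zero.1 hy
    · intro hg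
      have h1 : chi g = 1 := congrArg Units.val hg
      apply mem_of _ g.2
      have h2 := U_rad g.1 g.2
      rw [h2]
      have h3 : ((g : GL (Fin (3 - 1)) ℂ).1 *ᵥ rad 3 3) 0 = 1 := h1
      rw [h3, one_smul]
  have hrange : (chi.toHomUnits).range = rootsOfUnity 6 ℂ := by
    ext u
    rw [mem_rootsOfUnity, MonoidHom.mem_range]
    constructor
    · rintro ⟨g, rfl⟩
      apply Units.ext
      rw [Units.val_pow_eq_pow_val]
      exact mu_pow _ (chi_mu g)
    · intro hu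
      have hu' : (u : ℂ) ^ 6 = 1 := by rw [← Units.val_pow_eq_pow_val, hu, Units.val_one]
      obtain ⟨g, hg, e⟩ := scalar_mem u hu'
      refine ⟨⟨g, hg⟩, Units.ext ?_⟩
      show (g.1 *ᵥ rad 3 3) 0 = u
      rw [e, Matrix.smul_mulVec, Matrix.one_mulVec, rad33]
      simp
  rw [Subgroup.relIndex, hker, Subgroup.index_ker, hrange]
  rw [Complex.card_rootsOfUnity]

/-! ### The degenerate case `d ∣ n` -/

theorem zeta_ne_one (d : ℕ) (hd : 3 ≤ d) : zeta d ≠ 1 :=
  (Complex.isPrimitiveRoot_exp d (by omega)).ne_one (by omega)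

theorem br_zero_of_dvd (n d : ℕ) (hd : 3 ≤ d) (h : d ∣ n) : br d n = 0 := by
  have h1 := geom_sum_mul (zeta d) n
  obtain ⟨k, rfl⟩ := h
  rw [pow_mul, zeta_pow d (by omega), one_pow, sub_self] at h1
  exact (mul_eq_zero.1 h1).resolve_right (sub_ne_zero.2 (zeta_ne_one d hd))

theorem br_mem (d m : ℕ) : br d m ∈ R d :=
  Subring.sum_mem _ fun _ _ => Subring.pow_mem _ (zeta_mem d) _

theorem H_rad (n d : ℕ) (hn : 3 ≤ n) (hd : 3 ≤ d) (h : d ∣ n) : H n d *ᵥ rad n d = 0 := by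
  ext a
  rw [H_eq, Matrix.smul_mulVec, Pi.smul_apply, M_rad n d hn a, br_zero_of_dvd n d hd h]
  simp

theorem H_star (n d : ℕ) : (H n d)ᴴ = H n d := by
  have hz := zeta_ne d
  rw [H_eq, Matrix.conjTranspose_smul, M_star, smul_smul, star_add, star_one, star_inv₀, star_zeta,
    inv_inv]
  congr 1
  field_simp
  ring

/-- The projection onto the radical along the first coordinate. -/
noncomputable def B (n d : ℕ) : Matrix (Fin (n - 1)) (Fin (n - 1)) ℂ :=
  fun a b => if (b : ℕ) = 0 then rad n d a else 0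

theorem mul_B (n d : ℕ) (A : Matrix (Fin (n - 1)) (Fin (n - 1)) ℂ) (a b : Fin (n - 1)) :
    (A * B n d) a b = if (b : ℕ) = 0 then (A *ᵥ rad n d) a else 0 := by
  rw [Matrix.mul_apply]
  split_ifs with h
  · simp [B, h, Matrix.mulVec, dotProduct]
  · simp [B, h]

theorem B_rad (n d : ℕ) (hn : 3 ≤ n) : B n d *ᵥ rad n d = rad n d := by
  ext a
  rw [Matrix.mulVec, dotProduct]
  rw [Finset.sum_eq_single (⟨0, by omega⟩ : Fin (n - 1))]
  · simp [B, rad, br]
  · intro b _ hb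
    have : (b : ℕ) ≠ 0 := fun h => hb (Fin.ext h)
    simp [B, this]
  · intro h
    exact absurd (Finset.mem_univ _) h

theorem B_sq (n d : ℕ) (hn : 3 ≤ n) : B n d * B n d = B n d := by
  ext a b
  rw [mul_B, B_rad n d hn]
  rfl

theorem H_B (n d : ℕ) (hn : 3 ≤ n) (hd : 3 ≤ d) (h : d ∣ n) : H n d * B n d = 0 := by
  ext a b
  rw [mul_B, H_rad n d hn hd h]
  simp

theorem gu_mul (n d : ℕ) (hn : 3 ≤ n) (u w : ℂ) (huw : u * w = 1) :
    (1 + (u - 1) • B n d) * (1 + (w - 1) • B n d) = 1 := by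
  rw [add_mul, one_mul, mul_add, mul_one, Matrix.smul_mul, Matrix.mul_smul, B_sq n d hn, smul_smul]
  have : (1 + (w - 1) • B n d + ((u - 1) • B n d + ((u - 1) * (w - 1)) • B n d)) =
      1 + (u * w - 1) • B n d := by
    have h1 : (u * w - 1) = (w - 1) + ((u - 1) + (u - 1) * (w - 1)) := by ring
    rw [h1]
    module
  rw [this, huw, sub_self, zero_smul, add_zero]

theorem gu_mem_U (n d : ℕ) (hn : 3 ≤ n) (hd : 3 ≤ d) (h : d ∣ n) (u w : ℂ) (hu : u ∈ R d)
    (hw : w ∈ R d) (huw : u * w = 1) :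
    ∃ g ∈ U n d, (g : Matrix (Fin (n - 1)) (Fin (n - 1)) ℂ) *ᵥ rad n d = u • rad n d := by
  have hB : ∀ a b, B n d a b ∈ R d := by
    intro a b
    simp only [B]
    split_ifs
    · exact br_mem d _
    · exact Subring.zero_mem _
  have hmem : ∀ v ∈ R d, ∀ a b, (1 + (v - 1) • B n d) a b ∈ R d := by
    intro v hv a b
    rw [Matrix.add_apply, Matrix.smul_apply, smul_eq_mul]
    exact Subring.add_mem _ (one_mem_R n d a b)
      (Subring.mul_mem _ (Subring.sub_mem _ hv (Subring.one_mem _)) (hB a b))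
  refine ⟨⟨1 + (u - 1) • B n d, 1 + (w - 1) • B n d, gu_mul n d hn u w huw,
    gu_mul n d hn w u (by rw [mul_comm, huw])⟩, ⟨?_, ?_, ?_⟩, ?_⟩
  · exact fun a b => hmem u hu a b
  · exact fun a b => hmem w hw a b
  · show (1 + (u - 1) • B n d)ᴴ * H n d * (1 + (u - 1) • B n d) = H n d
    have h1 : (B n d)ᴴ * H n d = 0 := by
      have h2 := congrArg Matrix.conjTranspose (H_B n d hn hd h)
      rwa [Matrix.conjTranspose_mul, H_star, Matrix.conjTranspose_zero] at h2
    rw [Matrix.conjTranspose_add, Matrix.conjTranspose_one, Matrix.conjTranspose_smul, add_mul,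
      one_mul, Matrix.smul_mul, h1, smul_zero, add_zero, mul_add, mul_one, Matrix.mul_smul,
      H_B n d hn hd h, smul_zero, add_zero]
  · show (1 + (u - 1) • B n d) *ᵥ rad n d = u • rad n d
    rw [Matrix.add_mulVec, Matrix.one_mulVec, Matrix.smul_mulVec, B_rad n d hn]
    module

theorem pow_rad (n d k : ℕ) (u : ℂ) (g : GL (Fin (n - 1)) ℂ)
    (h : (g : Matrix (Fin (n - 1)) (Fin (n - 1)) ℂ) *ᵥ rad n d = u • rad n d) :
    ((g ^ k : GL (Fin (n - 1)) ℂ) : Matrix (Fin (n - 1)) (Fin (n - 1)) ℂ) *ᵥ rad n d =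
      u ^ k • rad n d := by
  induction k with
  | zero => simp
  | succ k ih =>
    rw [pow_succ, Units.val_mul, ← Matrix.mulVec_mulVec, h, Matrix.mulVec_smul, ih, smul_smul,
      pow_succ, mul_comm]

theorem exists_coprime (d : ℕ) (hd : 3 ≤ d) (h : 2 < Nat.totient d) :
    ∃ a, 1 < a ∧ a + 1 < d ∧ Nat.Coprime a d := by
  by_contra hne
  push Not at hne
  have hsub : (Finset.range d).filter (Nat.Coprime d) ⊆ {1, d - 1} := by
    intro a ha
    rw [Finset.mem_filter, Finset.mem_range] at ha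
    rw [Finset.mem_insert, Finset.mem_singleton]
    by_contra hcon
    push Not at hcon
    have h0 : a ≠ 0 := by
      rintro rfl
      have := ha.2
      rw [Nat.coprime_zero_right] at this
      omega
    exact hne a (by omega) (by omega) ha.2.symm
  have hcard := Finset.card_le_card hsub
  rw [← Nat.totient_eq_card_coprime] at hcard
  have := Finset.card_le_two (a := 1) (b := d - 1)
  omega

/-- A unit of `R_d` which is not a root of unity. -/
theorem exists_unit (d : ℕ) (hd : 3 ≤ d) (h : 2 < Nat.totient d) :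
    ∃ u ∈ R d, ∃ w ∈ R d, u * w = 1 ∧ ∀ k : ℕ, 0 < k → u ^ k ≠ 1 := by
  obtain ⟨a, ha1, ha2, hc⟩ := exists_coprime d hd h
  have hp : IsPrimitiveRoot (zeta d) d := Complex.isPrimitiveRoot_exp d (by omega)
  have hz := zeta_ne d
  have hz1 := zeta_ne_one d hd
  obtain ⟨b, -, hb⟩ := Nat.exists_mul_mod_eq_one_of_coprime hc (by omega)
  have hab : zeta d ^ (a * b) = zeta d := by
    rw [← Nat.mod_add_div (a * b) d, hb, pow_add, pow_mul, hp.pow_eq_one, one_pow, mul_one, pow_one]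
  have hza : zeta d ^ a ≠ 1 := by
    intro h1
    have := Nat.le_of_dvd (by omega) ((hp.pow_eq_one_iff_dvd a).1 h1)
    omega
  have e1 : br d a * (zeta d - 1) = zeta d ^ a - 1 := geom_sum_mul _ _
  have e2 : (∑ k ∈ Finset.range b, (zeta d ^ a) ^ k) * (zeta d ^ a - 1) = zeta d - 1 := by
    rw [geom_sum_mul, ← pow_mul, hab]
  refine ⟨br d a, br_mem d a, ∑ k ∈ Finset.range b, (zeta d ^ a) ^ k,
    Subring.sum_mem _ fun _ _ => Subring.pow_mem _ (Subring.pow_mem _ (zeta_mem d) _) _, ?_, ?_⟩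
  · have h3 : (zeta d ^ a - 1) ≠ 0 := sub_ne_zero.2 hza
    apply mul_right_cancel₀ h3
    rw [mul_assoc, e2, e1, one_mul]
  · intro k hk hu
    have hn : ‖br d a‖ = 1 := Complex.norm_eq_one_of_pow_eq_one hu hk.ne'
    have hs : star (br d a) * br d a = 1 := by
      rw [Complex.star_def, Complex.conj_mul', hn]
      norm_num
    have e3 := congrArg star e1
    rw [star_mul', star_sub, star_sub, star_pow, star_one, star_zeta] at e3
    have e4 : ((zeta d)⁻¹ - 1) * (zeta d - 1) = ((zeta d)⁻¹ ^ a - 1) * (zeta d ^ a - 1) := by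
      calc _ = (star (br d a) * br d a) * (((zeta d)⁻¹ - 1) * (zeta d - 1)) := by
            rw [hs, one_mul]
        _ = (star (br d a) * ((zeta d)⁻¹ - 1)) * (br d a * (zeta d - 1)) := by ring
        _ = _ := by rw [e3, e1]
    have hx : (zeta d)⁻¹ ^ a * zeta d ^ a = 1 := by rw [← mul_pow, inv_mul_cancel₀ hz, one_pow]
    have hy : (zeta d)⁻¹ * zeta d = 1 := inv_mul_cancel₀ hz
    have e5 : (zeta d ^ a - zeta d) * (zeta d ^ (a + 1) - 1) = 0 := by
      have e6 : (zeta d ^ a - zeta d) * (zeta d ^ (a + 1) - 1) =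
          zeta d ^ a * zeta d * (((zeta d)⁻¹ - 1) * (zeta d - 1) -
            ((zeta d)⁻¹ ^ a - 1) * (zeta d ^ a - 1)) := by
        rw [pow_succ]
        linear_combination (zeta d * zeta d ^ a - zeta d) * hx +
          (-zeta d * zeta d ^ a + zeta d ^ a) * hy
      rw [e6, e4, sub_self, mul_zero]
    rcases mul_eq_zero.1 e5 with e7 | e7
    · have e8 : zeta d ^ (a - 1) = 1 := by
        have : zeta d ^ (a - 1) * zeta d = 1 * zeta d := by
          rw [← pow_succ, Nat.sub_add_cancel (by omega), one_mul]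
          exact sub_eq_zero.1 e7
        exact mul_right_cancel₀ hz this
      have := Nat.le_of_dvd (by omega) ((hp.pow_eq_one_iff_dvd _).1 e8)
      omega
    · have := Nat.le_of_dvd (by omega) ((hp.pow_eq_one_iff_dvd _).1 (sub_eq_zero.1 e7))
      omega

theorem infinite_index (n d : ℕ) (hn : 3 ≤ n) (hd : 3 ≤ d) (h : d ∣ n) (ht : 2 < Nat.totient d) :
    (Gam n d).relIndex (U n d) = 0 := by
  by_contra hne
  obtain ⟨u, hu, w, hw, huw, hk⟩ := exists_unit d hd ht
  obtain ⟨g, hg, hgr⟩ := gu_mem_U n d hn hd h u w hu hw huw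
  obtain ⟨k, hk0, -, hmem⟩ := Subgroup.exists_pow_mem_of_relIndex_ne_zero hne hg
  obtain ⟨y, -, hy⟩ := congr_rad n d hn (by omega) _ hmem.1 ⟨0, by omega⟩
  rw [pow_rad n d k u g hgr, br_zero_of_dvd n d hd h, zero_mul] at hy
  have hr : rad n d ⟨0, by omega⟩ = 1 := by simp [rad, br]
  rw [Pi.smul_apply, smul_eq_mul, hr, mul_one] at hy
  exact hk k hk0 (sub_eq_zero.1 hy)

end Pool.Agent.Burau938
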