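import Mathlib
import Pool.Agent.Burau938.Core

set_option autoImplicit false

open Matrix

namespace Pool.Agent.Burau938

/-- Basis vectors. -/
noncomputable def ee (n j : ℕ) : Fin (n - 1) → ℂ := fun a => if (a : ℕ) = j then 1 else 0

theorem mulVec_ee (n j : ℕ) (hj : j < n - 1) (A : Matrix (Fin (n - 1)) (Fin (n - 1)) ℂ)
    (a : Fin (n - 1)) : (A *ᵥ ee n j) a = A a ⟨j, hj⟩ := by
  rw [Matrix.mulVec, dotProduct, Finset.sum_eq_single (⟨j, hj⟩ : Fin (n - 1))]
  · simp [ee]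
  · intro b _ hb
    have : (b : ℕ) ≠ j := fun h => hb (Fin.ext h)
    simp [ee, this]
  · intro h
    exact absurd (Finset.mem_univ _) h

theorem sig_far (n d i j : ℕ) (hi : i < n - 1) (hj : j < n - 1) (h1 : j ≠ i) (h2 : j + 1 ≠ i)
    (h3 : j ≠ i + 1) : sigma n d ⟨i, hi⟩ *ᵥ ee n j = ee n j := by
  ext a
  rw [mulVec_ee n j hj]
  simp only [sigma, ee, Fin.ext_iff]
  split_ifs <;> first | rfl | (exfalso; omega)

theorem sig_same (n d i : ℕ) (hi : i < n - 1) :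
    sigma n d ⟨i, hi⟩ *ᵥ ee n i = -zeta d • ee n i := by
  ext a
  rw [mulVec_ee n i hi]
  simp only [sigma, ee, Fin.ext_iff, Pi.smul_apply, smul_eq_mul]
  split_ifs <;> first | ring1 | (exfalso; omega)

theorem sig_prev (n d j : ℕ) (hi : j + 1 < n - 1) :
    sigma n d ⟨j + 1, hi⟩ *ᵥ ee n j = ee n j + zeta d • ee n (j + 1) := by
  ext a
  rw [mulVec_ee n j (by omega)]
  simp only [sigma, ee, Fin.ext_iff, Pi.add_apply, Pi.smul_apply, smul_eq_mul]
  split_ifs <;> first | ring1 | (exfalso; omega)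

theorem sig_next (n d i : ℕ) (hi : i + 1 < n - 1) :
    sigma n d ⟨i, by omega⟩ *ᵥ ee n (i + 1) = ee n (i + 1) + ee n i := by
  ext a
  rw [mulVec_ee n (i + 1) hi]
  simp only [sigma, ee, Fin.ext_iff, Pi.add_apply]
  split_ifs <;> first | ring1 | (exfalso; omega)

/-- The product of the first `k` generators. -/
noncomputable def P (n d : ℕ) : ℕ → GL (Fin (n - 1)) ℂ
  | 0 => 1
  | k + 1 => P n d k * (if h : k < n - 1 then sig n d ⟨k, h⟩ else 1)

theorem P_mem (n d k : ℕ) : P n d k ∈ Gam n d := by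
  induction k with
  | zero => exact Subgroup.one_mem _
  | succ k ih =>
    refine Subgroup.mul_mem _ ih ?_
    split_ifs with h
    · exact sig_mem n d _
    · exact Subgroup.one_mem _

noncomputable def sE (n k : ℕ) : Fin (n - 1) → ℂ := ∑ i ∈ Finset.range k, ee n i

theorem sE_succ (n k : ℕ) : sE n (k + 1) = sE n k + ee n k := Finset.sum_range_succ _ _

theorem P_act (n d : ℕ) (k : ℕ) : k + 2 ≤ n →
    (∀ j, j + 1 < k → (P n d k).1 *ᵥ ee n j = zeta d • ee n (j + 1)) ∧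
    (∀ j, j + 1 = k → (P n d k).1 *ᵥ ee n j = -zeta d • sE n k) ∧
    ((P n d k).1 *ᵥ ee n k = sE n (k + 1)) ∧
    (∀ j, k < j → j < n - 1 → (P n d k).1 *ᵥ ee n j = ee n j) := by
  induction k with
  | zero =>
    intro hk
    refine ⟨fun j hj => by omega, fun j hj => by omega, ?_, fun j _ _ => ?_⟩
    · show (1 : Matrix (Fin (n - 1)) (Fin (n - 1)) ℂ) *ᵥ ee n 0 = sE n 1
      rw [Matrix.one_mulVec, sE]
      simp
    · show (1 : Matrix (Fin (n - 1)) (Fin (n - 1)) ℂ) *ᵥ ee n j = _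
      rw [Matrix.one_mulVec]
  | succ k ih =>
    intro hk
    obtain ⟨ha, hb, hc, hd⟩ := ih (by omega)
    have hk' : k < n - 1 := by omega
    have hP : ∀ x, (P n d (k + 1)).1 *ᵥ x = (P n d k).1 *ᵥ (sigma n d ⟨k, hk'⟩ *ᵥ x) := by
      intro x
      have : (P n d (k + 1)).1 = (P n d k).1 * sigma n d ⟨k, hk'⟩ := by
        show ((P n d k * (if h : k < n - 1 then sig n d ⟨k, h⟩ else 1) : GL (Fin (n - 1)) ℂ) :
          Matrix (Fin (n - 1)) (Fin (n - 1)) ℂ) = _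
        rw [dif_pos hk', Units.val_mul]
        rfl
      rw [this, Matrix.mulVec_mulVec]
    refine ⟨fun j hj => ?_, fun j hj => ?_, ?_, fun j hj hj' => ?_⟩
    · rw [hP]
      by_cases h : j + 1 = k
      · subst h
        rw [sig_prev n d j hk', Matrix.mulVec_add, Matrix.mulVec_smul, hb j rfl, hc,
          sE_succ n (j + 1)]
        module
      · rw [sig_far n d k j hk' (by omega) (by omega) (by omega) (by omega)]
        exact ha j (by omega)
    · have : j = k := by omega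
      subst this
      rw [hP, sig_same, Matrix.mulVec_smul, hc]
    · rw [hP, sig_next n d k (by omega), Matrix.mulVec_add, hc, hd (k + 1) (by omega) (by omega),
        sE_succ n (k + 1)]
      module
    · rw [hP, sig_far n d k j hk' hj' (by omega) (by omega) (by omega)]
      exact hd j (by omega) hj'

/-- The cyclically permuted vectors. -/
noncomputable def ff (n : ℕ) (j : ℕ) : Fin (n - 1) → ℂ := if j + 2 < n then ee n j else -sE n (n - 2)

theorem Q_step (n d : ℕ) (hn : 3 ≤ n) (j : ℕ) (hj : j + 2 < n) :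
    (P n d (n - 2)).1 *ᵥ ff n j = zeta d • ff n (j + 1) := by
  obtain ⟨ha, hb, -, -⟩ := P_act n d (n - 2) (by omega)
  unfold ff
  rw [if_pos hj]
  by_cases h : j + 1 + 2 < n
  · rw [if_pos h]
    exact ha j (by omega)
  · rw [if_neg h, hb j (by omega)]
    module

theorem Q_last (n d : ℕ) (hn : 3 ≤ n) :
    (P n d (n - 2)).1 *ᵥ ff n (n - 2) = zeta d • ff n 0 := by
  obtain ⟨ha, hb, -, -⟩ := P_act n d (n - 2) (by omega)
  unfold ff
  rw [if_neg (by omega), if_pos (by omega)]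
  obtain ⟨m, rfl⟩ : ∃ m, n = m + 3 := ⟨n - 3, by omega⟩
  have e : m + 3 - 2 = m + 1 := by omega
  rw [e] at ha hb ⊢
  have h1 : (P (m + 3) d (m + 1)).1 *ᵥ sE (m + 3) (m + 1) = -zeta d • ee (m + 3) 0 := by
    have h2 : sE (m + 3) (m + 1) = ∑ i ∈ Finset.range m, ee (m + 3) (i + 1) + ee (m + 3) 0 :=
      Finset.sum_range_succ' _ _
    have h3 : (P (m + 3) d (m + 1)).1 *ᵥ (∑ i ∈ Finset.range m, ee (m + 3) i) =
        zeta d • ∑ i ∈ Finset.range m, ee (m + 3) (i + 1) := by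
      rw [Matrix.mulVec_sum, Finset.smul_sum]
      exact Finset.sum_congr rfl fun i hi => ha i (by have := Finset.mem_range.1 hi; omega)
    have h4 : sE (m + 3) (m + 1) = ∑ i ∈ Finset.range m, ee (m + 3) i + ee (m + 3) m :=
      Finset.sum_range_succ _ _
    conv_lhs => rw [h4]
    rw [Matrix.mulVec_add, h3, hb m rfl, h2]
    module
  rw [Matrix.mulVec_neg, h1]
  module

theorem Q_pow0 (n d : ℕ) (hn : 3 ≤ n) (k : ℕ) (hk : k + 2 ≤ n) :
    ((P n d (n - 2)) ^ k).1 *ᵥ ff n 0 = zeta d ^ k • ff n k := by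
  induction k with
  | zero => simp
  | succ k ih =>
    rw [pow_succ', Units.val_mul, ← Matrix.mulVec_mulVec, ih (by omega), Matrix.mulVec_smul,
      Q_step n d hn k (by omega), smul_smul, pow_succ]

/-- The full twist of the first `n - 1` strands. -/
noncomputable def D (n d : ℕ) : GL (Fin (n - 1)) ℂ := (P n d (n - 2)) ^ (n - 1)

theorem D_mem (n d : ℕ) : D n d ∈ Gam n d := Subgroup.pow_mem _ (P_mem n d _) _

theorem D_zero (n d : ℕ) (hn : 3 ≤ n) : (D n d).1 *ᵥ ff n 0 = zeta d ^ (n - 1) • ff n 0 := by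
  obtain ⟨m, rfl⟩ : ∃ m, n = m + 3 := ⟨n - 3, by omega⟩
  have e : m + 3 - 1 = m + 1 + 1 := by omega
  have e2 : m + 3 - 2 = m + 1 := by omega
  have h1 := Q_pow0 (m + 3) d hn (m + 1) (by omega)
  have h2 := Q_last (m + 3) d hn
  unfold D
  rw [e2] at h1 h2 ⊢
  have hpow : (P (m + 3) d (m + 1)) ^ (m + 3 - 1) =
      P (m + 3) d (m + 1) * (P (m + 3) d (m + 1)) ^ (m + 1) := pow_succ' _ _
  rw [hpow, Units.val_mul, ← Matrix.mulVec_mulVec, h1, Matrix.mulVec_smul, h2, smul_smul]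
  rfl

theorem D_ff (n d : ℕ) (hn : 3 ≤ n) (j : ℕ) (hj : j + 2 ≤ n) :
    (D n d).1 *ᵥ ff n j = zeta d ^ (n - 1) • ff n j := by
  have hz : zeta d ^ j ≠ 0 := pow_ne_zero _ (zeta_ne d)
  have h1 := Q_pow0 n d hn j hj
  have h2 : (D n d).1 *ᵥ (zeta d ^ j • ff n j) = zeta d ^ (n - 1) • (zeta d ^ j • ff n j) := by
    rw [← h1, Matrix.mulVec_mulVec]
    have hc : (D n d).1 * ((P n d (n - 2)) ^ j).1 = ((P n d (n - 2)) ^ j).1 * (D n d).1 := by
      rw [← Units.val_mul, ← Units.val_mul]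
      congr 1
      unfold D
      rw [← pow_add, ← pow_add, add_comm]
    rw [hc, ← Matrix.mulVec_mulVec, D_zero n d hn, Matrix.mulVec_smul]
  rw [Matrix.mulVec_smul, smul_comm] at h2
  exact smul_right_injective _ hz h2

theorem D_ee (n d : ℕ) (hn : 3 ≤ n) (j : ℕ) (hj : j + 2 < n) :
    (D n d).1 *ᵥ ee n j = zeta d ^ (n - 1) • ee n j := by
  have h := D_ff n d hn j (by omega)
  unfold ff at h
  rwa [if_pos hj] at h

theorem gam_rad (n d : ℕ) (hn : 3 ≤ n) (hd : 3 ≤ d) (h : d ∣ n) (g : GL (Fin (n - 1)) ℂ)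
    (hg : g ∈ Gam n d) : g.1 *ᵥ rad n d = rad n d := by
  ext j
  obtain ⟨y, -, hy⟩ := congr_rad n d hn (by omega) g hg j
  rw [br_zero_of_dvd n d hd h, zero_mul] at hy
  exact sub_eq_zero.1 hy

theorem br_pred (n d : ℕ) (hn : 3 ≤ n) (hd : 3 ≤ d) (h : d ∣ n) :
    br d (n - 1) = -zeta d ^ (n - 1) := by
  have h0 := br_zero_of_dvd n d hd h
  obtain ⟨m, rfl⟩ : ∃ m, n = m + 1 := ⟨n - 1, by omega⟩
  rw [Nat.add_sub_cancel]
  have h1 : br d (m + 1) = br d m + zeta d ^ m := Finset.sum_range_succ _ _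
  rw [h0] at h1
  linear_combination -h1

/-- The last index. -/
def lst (n : ℕ) (hn : 3 ≤ n) : Fin (n - 1) := ⟨n - 2, by omega⟩

theorem rad_lst (n d : ℕ) (hn : 3 ≤ n) (hd : 3 ≤ d) (h : d ∣ n) :
    rad n d (lst n hn) = -zeta d ^ (n - 1) := by
  rw [← br_pred n d hn hd h]
  show br d (n - 2 + 1) = _
  congr 1
  omega

/-- The matrix of the full twist. -/
theorem D_eq (n d : ℕ) (hn : 3 ≤ n) (hd : 3 ≤ d) (h : d ∣ n) :
    (D n d).1 = zeta d ^ (n - 1) • (1 : Matrix (Fin (n - 1)) (Fin (n - 1)) ℂ) +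
      (1 - zeta d) • vecMulVec (rad n d) (Pi.single (lst n hn) 1) := by
  set X : Matrix (Fin (n - 1)) (Fin (n - 1)) ℂ :=
    zeta d ^ (n - 1) • (1 : Matrix (Fin (n - 1)) (Fin (n - 1)) ℂ) +
      (1 - zeta d) • vecMulVec (rad n d) (Pi.single (lst n hn) 1) with hX
  have h1 : ∀ a j : Fin (n - 1), (j : ℕ) + 2 < n → (D n d).1 a j = X a j := by
    intro a j hj
    have h2 := congrFun (D_ee n d hn j hj) a
    rw [mulVec_ee n j j.2] at h2
    have h3 : (⟨(j : ℕ), j.2⟩ : Fin (n - 1)) = j := rfl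
    rw [h3] at h2
    rw [h2, hX]
    have h4 : lst n hn ≠ j := by
      intro h5
      have := congrArg Fin.val h5
      simp only [lst] at this
      omega
    simp [Matrix.one_apply, vecMulVec_apply, ee, h4.symm, Fin.ext_iff]
  have h2 : (D n d).1 *ᵥ rad n d = X *ᵥ rad n d := by
    rw [gam_rad n d hn hd h _ (D_mem n d), hX, Matrix.add_mulVec, Matrix.smul_mulVec,
      Matrix.one_mulVec, Matrix.smul_mulVec]
    ext a
    have h3 : (vecMulVec (rad n d) (Pi.single (lst n hn) 1) *ᵥ rad n d) a =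
        rad n d a * rad n d (lst n hn) := by
      simp [Matrix.mulVec, dotProduct, vecMulVec_apply, Pi.single_apply]
    rw [Pi.add_apply, Pi.smul_apply, Pi.smul_apply, h3, rad_lst n d hn hd h, smul_eq_mul,
      smul_eq_mul]
    have h4 : zeta d * zeta d ^ (n - 1) = 1 := by
      rw [← pow_succ', Nat.sub_add_cancel (by omega)]
      obtain ⟨k, rfl⟩ := h
      rw [pow_mul, zeta_pow d (by omega), one_pow]
    linear_combination (-rad n d a) * h4
  ext a j
  by_cases hj : (j : ℕ) + 2 < n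
  · exact h1 a j hj
  · have hjl : j = lst n hn := by
      apply Fin.ext
      show (j : ℕ) = n - 2
      have := j.2
      omega
    subst hjl
    have h3 := congrFun h2 a
    rw [Matrix.mulVec, Matrix.mulVec, dotProduct, dotProduct,
      ← Finset.add_sum_erase _ _ (Finset.mem_univ (lst n hn)),
      ← Finset.add_sum_erase _ _ (Finset.mem_univ (lst n hn))] at h3
    have h4 : ∑ b ∈ Finset.univ.erase (lst n hn), (D n d).1 a b * rad n d b =
        ∑ b ∈ Finset.univ.erase (lst n hn), X a b * rad n d b := by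
      refine Finset.sum_congr rfl fun b hb => ?_
      have hb' : (b : ℕ) + 2 < n := by
        have h5 : (b : ℕ) ≠ n - 2 := fun h6 => (Finset.mem_erase.1 hb).1 (Fin.ext h6)
        have := b.2
        omega
      rw [h1 a b hb']
    rw [h4] at h3
    have h5 := add_right_cancel h3
    have h6 : rad n d (lst n hn) ≠ 0 := by
      rw [rad_lst n d hn hd h]
      exact neg_ne_zero.2 (pow_ne_zero _ (zeta_ne d))
    exact mul_right_cancel₀ h6 h5

/-- The matrices `1 + r φ`. -/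
noncomputable def tv (n d : ℕ) (φ : Fin (n - 1) → ℂ) : Matrix (Fin (n - 1)) (Fin (n - 1)) ℂ :=
  1 + vecMulVec (rad n d) φ

theorem tv_mul (n d : ℕ) (φ ψ : Fin (n - 1) → ℂ) (h : φ ⬝ᵥ rad n d = 0) :
    tv n d φ * tv n d ψ = tv n d (φ + ψ) := by
  unfold tv
  rw [add_mul, one_mul, mul_add, mul_one, vecMulVec_mul_vecMulVec, h, zero_smul, vecMulVec_zero,
    add_zero, vecMulVec_add]
  abel

/-- `M` as a family of row vectors. -/
theorem sigma_last (n d : ℕ) (hn : 3 ≤ n) (hd : 3 ≤ d) (h : d ∣ n) :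
    (D n d).1 * (sig n d (lst n hn)).1 = (sig n d (lst n hn)).1 * (D n d).1 *
      tv n d (-(1 - zeta d) • M n d (lst n hn)) := by
  have hr := gam_rad n d hn hd h _ (sig_mem n d (lst n hn))
  have hr2 := gam_rad n d hn hd h _ (D_mem n d)
  have hrow : (Pi.single (lst n hn) 1 : Fin (n - 1) → ℂ) ᵥ* (sig n d (lst n hn)).1 =
      Pi.single (lst n hn) 1 - M n d (lst n hn) := by
    rw [Matrix.single_one_vecMul]
    ext b
    show sigma n d (lst n hn) (lst n hn) b = _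
    rw [sigma_eq, Matrix.sub_apply, Matrix.single_mul_apply_same, Matrix.one_apply, Pi.sub_apply,
      Pi.single_apply, one_mul]
    simp only [eq_comm]
  have e1 : (D n d).1 * (sig n d (lst n hn)).1 = zeta d ^ (n - 1) • (sig n d (lst n hn)).1 +
      (1 - zeta d) • vecMulVec (rad n d) (Pi.single (lst n hn) 1 - M n d (lst n hn)) := by
    rw [D_eq n d hn hd h, add_mul, Matrix.smul_mul, one_mul, Matrix.smul_mul, vecMulVec_mul, hrow]
  have e2 : (sig n d (lst n hn)).1 * (D n d).1 = zeta d ^ (n - 1) • (sig n d (lst n hn)).1 +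
      (1 - zeta d) • vecMulVec (rad n d) (Pi.single (lst n hn) 1) := by
    rw [D_eq n d hn hd h, mul_add, Matrix.mul_smul, mul_one, Matrix.mul_smul, mul_vecMulVec, hr]
  have e3 : (sig n d (lst n hn)).1 * (D n d).1 *
      tv n d (-(1 - zeta d) • M n d (lst n hn)) = (sig n d (lst n hn)).1 * (D n d).1 +
      vecMulVec (rad n d) (-(1 - zeta d) • M n d (lst n hn)) := by
    unfold tv
    rw [mul_add, mul_one, mul_vecMulVec, ← Matrix.mulVec_mulVec, hr2, hr]
  rw [e3, e1, e2, vecMulVec_smul, vecMulVec_sub]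
  module

/-- The row vectors `φ` with `φ r = 0` and `1 + r φ` in the group. -/
def Lat (n d : ℕ) : AddSubgroup (Fin (n - 1) → ℂ) where
  carrier := {φ | φ ⬝ᵥ rad n d = 0 ∧ ∃ γ ∈ Gam n d, γ.1 = tv n d φ}
  zero_mem' := ⟨zero_dotProduct _, 1, Subgroup.one_mem _, by simp [tv]⟩
  add_mem' := by
    rintro φ ψ ⟨h1, γ, hγ, e1⟩ ⟨h2, δ, hδ, e2⟩
    refine ⟨by rw [add_dotProduct, h1, h2, add_zero], γ * δ, Subgroup.mul_mem _ hγ hδ, ?_⟩
    rw [Units.val_mul, e1, e2, tv_mul n d φ ψ h1]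
  neg_mem' := by
    rintro φ ⟨h1, γ, hγ, e1⟩
    refine ⟨by rw [neg_dotProduct, h1, neg_zero], γ⁻¹, Subgroup.inv_mem _ hγ, ?_⟩
    apply Units.inv_eq_of_mul_eq_one_right
    rw [e1, tv_mul n d φ (-φ) h1, add_neg_cancel]
    simp [tv]

theorem lat_conj (n d : ℕ) (hn : 3 ≤ n) (hd : 3 ≤ d) (h : d ∣ n) (φ : Fin (n - 1) → ℂ)
    (hφ : φ ∈ Lat n d) (δ : GL (Fin (n - 1)) ℂ) (hδ : δ ∈ Gam n d) : φ ᵥ* δ.1 ∈ Lat n d := by
  obtain ⟨h1, γ, hγ, e1⟩ := hφ
  refine ⟨?_, δ⁻¹ * γ * δ, Subgroup.mul_mem _ (Subgroup.mul_mem _ (Subgroup.inv_mem _ hδ) hγ) hδ,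
    ?_⟩
  · rw [← Matrix.dotProduct_mulVec, gam_rad n d hn hd h δ hδ, h1]
  · rw [Units.val_mul, Units.val_mul, e1]
    unfold tv
    rw [mul_add, mul_one, add_mul, mul_vecMulVec, vecMulVec_mul,
      gam_rad n d hn hd h _ (Subgroup.inv_mem _ hδ), ← Units.val_mul, inv_mul_cancel,
      Units.val_one]

theorem vecMul_sigma (n d : ℕ) (i : Fin (n - 1)) (φ : Fin (n - 1) → ℂ) :
    φ ᵥ* sigma n d i = φ - φ i • M n d i := by
  ext b
  rw [Pi.sub_apply, Pi.smul_apply, smul_eq_mul, Matrix.vecMul, dotProduct]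
  have h1 : ∀ a, φ a * sigma n d i a b = φ a * (1 : Matrix (Fin (n - 1)) (Fin (n - 1)) ℂ) a b -
      (if a = i then φ i * M n d i b else 0) := by
    intro a
    rw [sigma_eq, Matrix.sub_apply, mul_sub]
    congr 1
    split_ifs with h
    · subst h
      rw [Matrix.single_mul_apply_same, one_mul]
    · rw [Matrix.single_mul_apply_of_ne _ _ _ _ _ (by simpa using h), mul_zero]
  rw [Finset.sum_congr rfl fun a _ => h1 a, Finset.sum_sub_distrib, Finset.sum_ite_eq']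
  simp [Matrix.one_apply]

theorem lat_key (n d : ℕ) (hn : 3 ≤ n) (hd : 3 ≤ d) (h : d ∣ n) (φ : Fin (n - 1) → ℂ)
    (hφ : φ ∈ Lat n d) (i : Fin (n - 1)) : φ i • M n d i ∈ Lat n d := by
  have h1 := lat_conj n d hn hd h φ hφ _ (sig_mem n d i)
  have h2 : φ ᵥ* (sig n d i).1 = φ - φ i • M n d i := vecMul_sigma n d i φ
  rw [h2] at h1
  have h3 := (Lat n d).sub_mem hφ h1
  rwa [sub_sub_cancel] at h3

theorem lat_zeta (n d : ℕ) (hn : 3 ≤ n) (hd : 3 ≤ d) (h : d ∣ n) (i : Fin (n - 1)) (c : ℂ)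
    (hc : c • M n d i ∈ Lat n d) : (zeta d * c) • M n d i ∈ Lat n d := by
  have h1 := lat_key n d hn hd h _ hc i
  have h2 : (c • M n d i) i = c * (1 + zeta d) := by simp [M]
  rw [h2] at h1
  have h3 := (Lat n d).sub_mem h1 hc
  have h4 : (zeta d * c) • M n d i = (c * (1 + zeta d)) • M n d i - c • M n d i := by module
  rw [h4]; exact h3

theorem lat_R (n d : ℕ) (hn : 3 ≤ n) (hd : 3 ≤ d) (h : d ∣ n) (i : Fin (n - 1)) (x : ℂ)
    (hx : x ∈ R d) : ∀ c : ℂ, c • M n d i ∈ Lat n d → (x * c) • M n d i ∈ Lat n d := by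
  refine Subring.closure_induction (p := fun x _ => ∀ c : ℂ, c • M n d i ∈ Lat n d →
    (x * c) • M n d i ∈ Lat n d) ?_ ?_ ?_ ?_ ?_ ?_ hx
  · rintro x hx c hc
    rw [Set.mem_singleton_iff] at hx
    subst hx
    exact lat_zeta n d hn hd h i c hc
  · intro c _
    rw [zero_mul, zero_smul]
    exact (Lat n d).zero_mem
  · intro c hc
    rwa [one_mul]
  · intro x y _ _ h1 h2 c hc
    rw [add_mul, add_smul]
    exact (Lat n d).add_mem (h1 c hc) (h2 c hc)
  · intro x _ h1 c hc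
    rw [neg_mul, neg_smul]
    exact (Lat n d).neg_mem (h1 c hc)
  · intro x y _ _ h1 h2 c hc
    rw [mul_assoc]
    exact h1 _ (h2 c hc)

theorem lat_prev (n d : ℕ) (hn : 3 ≤ n) (hd : 3 ≤ d) (h : d ∣ n) (j : ℕ) (hj : j + 1 < n - 1)
    (c : ℂ) (hc : c • M n d ⟨j + 1, hj⟩ ∈ Lat n d) : c • M n d ⟨j, by omega⟩ ∈ Lat n d := by
  have h1 := lat_key n d hn hd h _ hc ⟨j, by omega⟩
  have h2 : (c • M n d ⟨j + 1, hj⟩) ⟨j, by omega⟩ = -zeta d * c := by
    have h3 : M n d ⟨j + 1, hj⟩ ⟨j, by omega⟩ = -zeta d := by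
      simp only [M, Fin.ext_iff]
      rw [if_neg (by omega), if_neg (by omega), if_pos trivial]
    rw [Pi.smul_apply, h3, smul_eq_mul, mul_comm]
  rw [h2] at h1
  have h3 := lat_R n d hn hd h ⟨j, by omega⟩ (-(zeta d)⁻¹)
    (Subring.neg_mem _ (zeta_inv_mem d (by omega))) _ h1
  have h4 : -(zeta d)⁻¹ * (-zeta d * c) = c := by
    have := zeta_ne d
    field_simp
  rwa [h4] at h3

theorem lat_all (n d : ℕ) (hn : 3 ≤ n) (hd : 3 ≤ d) (h : d ∣ n) (c : ℂ)
    (hc : c • M n d (lst n hn) ∈ Lat n d) (k : ℕ) :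
    ∀ j (hj : j < n - 1), j + k = n - 2 → c • M n d ⟨j, hj⟩ ∈ Lat n d := by
  induction k with
  | zero =>
    intro j hj hk
    have : (⟨j, hj⟩ : Fin (n - 1)) = lst n hn := Fin.ext (by show j = n - 2; omega)
    rw [this]; exact hc
  | succ k ih =>
    intro j hj hk
    exact lat_prev n d hn hd h j (by omega) c (ih (j + 1) (by omega) (by omega))

theorem lat_last (n d : ℕ) (hn : 3 ≤ n) (hd : 3 ≤ d) (h : d ∣ n) :
    (1 - zeta d) • M n d (lst n hn) ∈ Lat n d := by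
  have h1 : -(1 - zeta d) • M n d (lst n hn) ∈ Lat n d := by
    refine ⟨?_, ((sig n d (lst n hn)) * D n d)⁻¹ * (D n d * sig n d (lst n hn)),
      Subgroup.mul_mem _ (Subgroup.inv_mem _ (Subgroup.mul_mem _ (sig_mem n d _) (D_mem n d)))
        (Subgroup.mul_mem _ (D_mem n d) (sig_mem n d _)), ?_⟩
    · rw [smul_dotProduct]
      have h2 : M n d (lst n hn) ⬝ᵥ rad n d = (M n d *ᵥ rad n d) (lst n hn) := rfl
      rw [h2, M_rad n d hn, br_zero_of_dvd n d hd h, zero_mul, smul_zero]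
    · have h3 := sigma_last n d hn hd h
      rw [← Units.val_mul, ← Units.val_mul] at h3
      rw [Units.val_mul, h3, ← Matrix.mul_assoc, ← Units.val_mul, inv_mul_cancel, Units.val_one,
        one_mul]
  have h2 := (Lat n d).neg_mem h1
  rw [neg_smul, neg_neg] at h2
  exact h2

theorem lat_tri (n d : ℕ) (hn : 3 ≤ n) (hd : 3 ≤ d) (h : d ∣ n) (c : ℂ)
    (hc : c • M n d (lst n hn) ∈ Lat n d) (k : ℕ) :
    ∀ φ : Fin (n - 1) → ℂ, (∀ j, φ j ∈ R d) → φ ⬝ᵥ rad n d = 0 →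
      (∀ j : Fin (n - 1), k + 1 ≤ (j : ℕ) → φ j = 0) → c • φ ∈ Lat n d := by
  induction k with
  | zero =>
    intro φ _ hr hz
    have h0 : φ ⟨0, by omega⟩ = 0 := by
      rw [dotProduct, Finset.sum_eq_single (⟨0, by omega⟩ : Fin (n - 1))] at hr
      · simpa [rad, br] using hr
      · intro b _ hb
        have : (b : ℕ) ≠ 0 := fun h => hb (Fin.ext h)
        rw [hz b (by omega), zero_mul]
      · intro h
        exact absurd (Finset.mem_univ _) h
    have : φ = 0 := by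
      ext j
      by_cases hj : (j : ℕ) = 0
      · have : j = ⟨0, by omega⟩ := Fin.ext hj
        rw [this, h0]; rfl
      · exact hz j (by omega)
    rw [this, smul_zero]
    exact (Lat n d).zero_mem
  | succ k ih =>
    intro φ hφ hr hz
    by_cases hk : k + 1 < n - 1
    · have hkk : k < n - 1 := by omega
      have h1 := ih (φ + φ ⟨k + 1, hk⟩ • M n d ⟨k, hkk⟩) ?_ ?_ ?_
      · have h2 := lat_all n d hn hd h c hc (n - 2 - k) k hkk (by omega)
        have h3 := lat_R n d hn hd h ⟨k, hkk⟩ _ (hφ ⟨k + 1, hk⟩) c h2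
        have h4 := (Lat n d).sub_mem h1 h3
        have h5 : c • φ = c • (φ + φ ⟨k + 1, hk⟩ • M n d ⟨k, hkk⟩) -
            (φ ⟨k + 1, hk⟩ * c) • M n d ⟨k, hkk⟩ := by module
        rw [h5]; exact h4
      · intro j
        rw [Pi.add_apply, Pi.smul_apply, smul_eq_mul]
        exact Subring.add_mem _ (hφ j) (Subring.mul_mem _ (hφ _) (M_mem n d _ _))
      · rw [add_dotProduct, smul_dotProduct, hr]
        have h2 : M n d ⟨k, hkk⟩ ⬝ᵥ rad n d = (M n d *ᵥ rad n d) ⟨k, hkk⟩ := rfl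
        rw [h2, M_rad n d hn, br_zero_of_dvd n d hd h, zero_mul, smul_zero, add_zero]
      · intro j hj
        rw [Pi.add_apply, Pi.smul_apply, smul_eq_mul]
        by_cases hj2 : (j : ℕ) = k + 1
        · have hj3 : j = ⟨k + 1, hk⟩ := Fin.ext hj2
          subst hj3
          have h3 : M n d ⟨k, hkk⟩ ⟨k + 1, hk⟩ = -1 := by
            simp only [M, Fin.ext_iff]
            rw [if_neg (by omega), if_pos trivial]
          rw [h3]; ring
        · have h3 : M n d ⟨k, hkk⟩ j = 0 := by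
            simp only [M, Fin.ext_iff]
            rw [if_neg (by omega), if_neg (by omega), if_neg (by omega)]
          rw [h3, hz j (by omega)]; ring
    · exact ih φ hφ hr fun j hj => by have := j.2; omega

/-- All unipotents congruent to one modulo `1 - ζ` are in the group. -/
theorem unip (n d : ℕ) (hn : 3 ≤ n) (hd : 3 ≤ d) (h : d ∣ n) (c : ℂ)
    (hc : c • M n d (lst n hn) ∈ Lat n d) (φ : Fin (n - 1) → ℂ) (hφ : ∀ j, φ j ∈ R d)
    (hr : φ ⬝ᵥ rad n d = 0) : c • φ ∈ Lat n d :=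
  lat_tri n d hn hd h c hc (n - 1) φ hφ hr fun j hj => by have := j.2; omega

/-- `1 - ζ_d` is a unit when `d` is not a prime power. -/
theorem one_sub_unit (d : ℕ) (hd : 3 ≤ d) (hp : ∀ p : ℕ, p.Prime → ∀ k : ℕ, p ^ k ≠ d) :
    ∃ v ∈ R d, v * (1 - zeta d) = 1 := by
  have hz : IsPrimitiveRoot (zeta d) d := Complex.isPrimitiveRoot_exp d (by omega)
  have h1 := Polynomial.eval_one_cyclotomic_not_prime_pow (R := ℂ) (n := d)
    (fun {p} hpp k => hp p hpp k)
  rw [Polynomial.cyclotomic_eq_prod_X_sub_primitiveRoots hz, Polynomial.eval_prod] at h1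
  simp only [Polynomial.eval_sub, Polynomial.eval_X, Polynomial.eval_C] at h1
  have hmem : zeta d ∈ primitiveRoots d ℂ := (mem_primitiveRoots (by omega)).2 hz
  rw [← Finset.mul_prod_erase _ _ hmem] at h1
  refine ⟨∏ μ ∈ (primitiveRoots d ℂ).erase (zeta d), (1 - μ), ?_, ?_⟩
  · refine Subring.prod_mem _ fun μ hμ => Subring.sub_mem _ (Subring.one_mem _) ?_
    have h2 : IsPrimitiveRoot μ d :=
      (mem_primitiveRoots (by omega)).1 (Finset.mem_of_mem_erase hμ)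
    have : NeZero d := ⟨by omega⟩
    obtain ⟨i, -, hi⟩ := hz.eq_pow_of_pow_eq_one h2.pow_eq_one
    rw [← hi]
    exact Subring.pow_mem _ (zeta_mem d) _
  · rw [mul_comm]; exact h1

theorem unip_weak (n d : ℕ) (hn : 3 ≤ n) (hd : 3 ≤ d) (h : d ∣ n) (φ : Fin (n - 1) → ℂ)
    (hφ : ∀ j, φ j ∈ R d) (hr : φ ⬝ᵥ rad n d = 0) :
    ∃ γ ∈ Gam n d, γ.1 = 1 + (1 - zeta d) • vecMulVec (rad n d) φ := by
  obtain ⟨-, γ, hγ, e⟩ := unip n d hn hd h (1 - zeta d) (lat_last n d hn hd h) φ hφ hr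
  refine ⟨γ, hγ, ?_⟩
  rw [e, tv, vecMulVec_smul]

theorem unip_full (n d : ℕ) (hn : 3 ≤ n) (hd : 3 ≤ d) (h : d ∣ n)
    (hp : ∀ p : ℕ, p.Prime → ∀ k : ℕ, p ^ k ≠ d) (φ : Fin (n - 1) → ℂ)
    (hφ : ∀ j, φ j ∈ R d) (hr : φ ⬝ᵥ rad n d = 0) :
    ∃ γ ∈ Gam n d, γ.1 = 1 + vecMulVec (rad n d) φ := by
  obtain ⟨v, hv, hv1⟩ := one_sub_unit d hd hp
  have h1 := lat_R n d hn hd h _ v hv _ (lat_last n d hn hd h)
  rw [hv1] at h1
  obtain ⟨-, γ, hγ, e⟩ := unip n d hn hd h 1 h1 φ hφ hr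
  refine ⟨γ, hγ, ?_⟩
  rw [e, tv, one_smul]

theorem preimage (n d : ℕ) (hn : 3 ≤ n) (hd : 3 ≤ d) (h : d ∣ n)
    (hp : ∀ p : ℕ, p.Prime → ∀ k : ℕ, p ^ k ≠ d) (g : GL (Fin (n - 1)) ℂ) :
    g ∈ Gam n d ↔ g ∈ U n d ∧ g.1 *ᵥ rad n d = rad n d ∧
      ∃ γ ∈ Gam n d, ∃ ψ : Fin (n - 1) → ℂ, g.1 = γ.1 + vecMulVec (rad n d) ψ := by
  constructor
  · intro hg
    exact ⟨(gam_le n d (by omega) g hg).1, gam_rad n d hn hd h g hg, g, hg, 0, by simp⟩
  · rintro ⟨hU, hgr, γ, hγ, ψ, e⟩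
    have hγU := (gam_le n d (by omega) γ hγ).1
    have hγr := gam_rad n d hn hd h γ hγ
    have hr0 : rad n d ⟨0, by omega⟩ = 1 := by simp [rad, br]
    have hψ : ∀ j, ψ j ∈ R d := by
      intro j
      have h1 := congrFun (congrFun e ⟨0, by omega⟩) j
      rw [Matrix.add_apply, vecMulVec_apply, hr0, one_mul] at h1
      have h2 : ψ j = g.1 ⟨0, by omega⟩ j - γ.1 ⟨0, by omega⟩ j := by rw [h1]; ring
      rw [h2]
      exact Subring.sub_mem _ (hU.1 _ _) (hγU.1 _ _)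
    have hψr : ψ ⬝ᵥ rad n d = 0 := by
      have h1 := hgr
      rw [e, Matrix.add_mulVec, hγr] at h1
      have h2 := congrFun h1 ⟨0, by omega⟩
      rw [Pi.add_apply, hr0, add_eq_left, Matrix.mulVec, dotProduct] at h2
      rw [dotProduct, ← h2]
      refine Finset.sum_congr rfl fun j _ => ?_
      rw [vecMulVec_apply, hr0, one_mul]
    obtain ⟨δ, hδ, hδe⟩ := unip_full n d hn hd h hp ψ hψ hψr
    have : g = γ * δ := by
      apply Units.ext
      rw [Units.val_mul, hδe, mul_add, mul_one, mul_vecMulVec, hγr]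
      exact e
    rw [this]
    exact Subgroup.mul_mem _ hγ hδ

theorem preimage_gen (n d : ℕ) (hn : 3 ≤ n) (hd : 3 ≤ d) (h : d ∣ n) (g : GL (Fin (n - 1)) ℂ) :
    g ∈ Gam n d ↔ g ∈ U n d ∧ g.1 *ᵥ rad n d = rad n d ∧
      ∃ γ ∈ Gam n d, ∃ ψ : Fin (n - 1) → ℂ, (∀ j, ∃ y ∈ R d, ψ j = (1 - zeta d) * y) ∧
        g.1 = γ.1 + vecMulVec (rad n d) ψ := by
  constructor
  · intro hg
    exact ⟨(gam_le n d (by omega) g hg).1, gam_rad n d hn hd h g hg, g, hg, 0,
      fun j => ⟨0, Subring.zero_mem _, by simp⟩, by simp⟩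
  · rintro ⟨hU, hgr, γ, hγ, ψ, hψ, e⟩
    have hγr := gam_rad n d hn hd h γ hγ
    have hr0 : rad n d ⟨0, by omega⟩ = 1 := by simp [rad, br]
    choose φ hφ hφe using hψ
    have hψφ : ψ = (1 - zeta d) • φ := by
      ext j
      rw [hφe j, Pi.smul_apply, smul_eq_mul]
    have hψr : ψ ⬝ᵥ rad n d = 0 := by
      have h1 := hgr
      rw [e, Matrix.add_mulVec, hγr] at h1
      have h2 := congrFun h1 ⟨0, by omega⟩
      rw [Pi.add_apply, hr0, add_eq_left, Matrix.mulVec, dotProduct] at h2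
      rw [dotProduct, ← h2]
      refine Finset.sum_congr rfl fun j _ => ?_
      rw [vecMulVec_apply, hr0, one_mul]
    have hφr : φ ⬝ᵥ rad n d = 0 := by
      rw [hψφ, smul_dotProduct, smul_eq_mul] at hψr
      exact (mul_eq_zero.1 hψr).resolve_left (sub_ne_zero.2 (zeta_ne_one d hd).symm)
    obtain ⟨δ, hδ, hδe⟩ := unip_weak n d hn hd h φ hφ hφr
    have : g = γ * δ := by
      apply Units.ext
      rw [Units.val_mul, hδe, mul_add, mul_one, Matrix.mul_smul, mul_vecMulVec, hγr, e, hψφ,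
        vecMulVec_smul]
    rw [this]
    exact Subgroup.mul_mem _ hγ hδ

end Pool.Agent.Burau938
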