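import Mathlib
import Pool.Agent.Burau938.Degen

set_option autoImplicit false

open Matrix

namespace Pool.Agent.Burau938

/-- Divisible by `1 - ζ_d` in `R_d`. -/
def Cg (d : ℕ) (x : ℂ) : Prop := ∃ y ∈ R d, x = (1 - zeta d) * y

theorem Cg_zero (d : ℕ) : Cg d 0 := ⟨0, Subring.zero_mem _, by simp⟩

theorem Cg_add {d : ℕ} {x y : ℂ} (hx : Cg d x) (hy : Cg d y) : Cg d (x + y) := by
  obtain ⟨a, ha, rfl⟩ := hx
  obtain ⟨b, hb, rfl⟩ := hy
  exact ⟨a + b, Subring.add_mem _ ha hb, by ring⟩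

theorem Cg_neg {d : ℕ} {x : ℂ} (hx : Cg d x) : Cg d (-x) := by
  obtain ⟨a, ha, rfl⟩ := hx
  exact ⟨-a, Subring.neg_mem _ ha, by ring⟩

theorem Cg_mul {d : ℕ} {x y : ℂ} (hx : Cg d x) (hy : y ∈ R d) : Cg d (x * y) := by
  obtain ⟨a, ha, rfl⟩ := hx
  exact ⟨a * y, Subring.mul_mem _ ha hy, by ring⟩

theorem Cg_sum {d : ℕ} {ι : Type} (s : Finset ι) (f : ι → ℂ) (h : ∀ i ∈ s, Cg d (f i)) :
    Cg d (∑ i ∈ s, f i) :=
  Finset.sum_induction f (Cg d) (fun _ _ => Cg_add) (Cg_zero d) h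

/-- The difference matrix. -/
noncomputable def dl (n : ℕ) : Matrix (Fin n) (Fin (n - 1)) ℂ :=
  fun a j => if (a : ℕ) = j then 1 else if (a : ℕ) = j + 1 then -1 else 0

theorem dl_sigma (n d : ℕ) (i : Fin (n - 1)) (a : Fin n) (j : Fin (n - 1)) :
    (dl n * sigma n d i) a j = dl n a j - dl n a i * M n d i j := by
  rw [sigma_eq, Matrix.mul_sub, Matrix.mul_one, Matrix.sub_apply, ← Matrix.mul_assoc,
    Matrix.mul_apply]
  congr 1
  rw [Finset.sum_eq_single i]
  · rw [Matrix.mul_single_apply_same, mul_one]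
  · intro b _ hb
    rw [Matrix.mul_single_apply_of_ne _ _ _ _ _ hb, zero_mul]
  · intro h
    exact absurd (Finset.mem_univ _) h

theorem perm_base (n d : ℕ) (i : Fin (n - 1)) :
    ∃ π : Equiv.Perm (Fin n), ∀ a j, Cg d ((dl n * sigma n d i) a j - dl n (π a) j) := by
  have hi := i.2
  have hin : (i : ℕ) < n := by omega
  have hin1 : (i : ℕ) + 1 < n := by omega
  refine ⟨Equiv.swap ⟨i, hin⟩ ⟨i + 1, hin1⟩, fun a j => ?_⟩
  rw [dl_sigma]
  have c0 : ∀ x : ℂ, x = 0 → Cg d x := fun x hx => hx ▸ Cg_zero d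
  have c1 : ∀ x : ℂ, x = 1 - zeta d → Cg d x := fun x hx => ⟨1, Subring.one_mem _, by rw [hx]; ring⟩
  have c2 : ∀ x : ℂ, x = -(1 - zeta d) → Cg d x := fun x hx =>
    ⟨-1, Subring.neg_mem _ (Subring.one_mem _), by rw [hx]; ring⟩
  by_cases h1 : a = ⟨i, hin⟩
  · subst h1
    rw [Equiv.swap_apply_left]
    simp only [dl, M, Fin.ext_iff]
    split_ifs <;> first
      | (exfalso; omega)
      | exact c0 _ (by ring1)
      | exact c1 _ (by ring1)
      | exact c2 _ (by ring1)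
  · by_cases h2 : a = ⟨i + 1, hin1⟩
    · subst h2
      rw [Equiv.swap_apply_right]
      simp only [dl, M, Fin.ext_iff]
      split_ifs <;> first
        | (exfalso; omega)
        | exact c0 _ (by ring1)
        | exact c1 _ (by ring1)
        | exact c2 _ (by ring1)
    · rw [Equiv.swap_apply_of_ne_of_ne h1 h2]
      have h3 : dl n a i = 0 := by
        simp only [dl]
        have h4 : (a : ℕ) ≠ i := fun h => h1 (Fin.ext h)
        have h5 : (a : ℕ) ≠ i + 1 := fun h => h2 (Fin.ext h)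
        rw [if_neg h4, if_neg h5]
      rw [h3]
      exact c0 _ (by ring)

theorem perm_mul (n d : ℕ) (g h : Matrix (Fin (n - 1)) (Fin (n - 1)) ℂ)
    (hh : ∀ a b, h a b ∈ R d) (π ρ : Equiv.Perm (Fin n))
    (hg1 : ∀ a j, Cg d ((dl n * g) a j - dl n (π a) j))
    (hh1 : ∀ a j, Cg d ((dl n * h) a j - dl n (ρ a) j)) (a : Fin n) (j : Fin (n - 1)) :
    Cg d ((dl n * (g * h)) a j - dl n (ρ (π a)) j) := by
  have e : (dl n * (g * h)) a j - dl n (ρ (π a)) j =
      (∑ b, ((dl n * g) a b - dl n (π a) b) * h b j) + ((dl n * h) (π a) j - dl n (ρ (π a)) j) := by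
    rw [← Matrix.mul_assoc, Matrix.mul_apply, Matrix.mul_apply (M := dl n) (N := h)]
    simp only [sub_mul, Finset.sum_sub_distrib]
    ring
  rw [e]
  exact Cg_add (Cg_sum _ _ fun b _ => Cg_mul (hg1 a b) (hh b j)) (hh1 (π a) j)

theorem perm_all (n d : ℕ) (hd : d ≠ 0) (g : GL (Fin (n - 1)) ℂ) (hg : g ∈ Gam n d) :
    ∃ π : Equiv.Perm (Fin n), ∀ a j, Cg d ((dl n * g.1) a j - dl n (π a) j) := by
  have key : g ∈ Gam n d ∧
      ∃ π : Equiv.Perm (Fin n), ∀ a j, Cg d ((dl n * g.1) a j - dl n (π a) j) := by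
    refine Subgroup.closure_induction (p := fun g _ => g ∈ Gam n d ∧
      ∃ π : Equiv.Perm (Fin n), ∀ a j, Cg d ((dl n * g.1) a j - dl n (π a) j)) ?_ ?_ ?_ ?_ hg
    · rintro g ⟨i, hi⟩
      refine ⟨Subgroup.subset_closure ⟨i, hi⟩, ?_⟩
      rw [hi]
      exact perm_base n d i
    · refine ⟨Subgroup.one_mem _, 1, fun a j => ?_⟩
      rw [Units.val_one, Matrix.mul_one, Equiv.Perm.one_apply, sub_self]
      exact Cg_zero d
    · rintro g h - - ⟨g1, π, hπ⟩ ⟨h1, ρ, hρ⟩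
      refine ⟨Subgroup.mul_mem _ g1 h1, ρ * π, fun a j => ?_⟩
      rw [Units.val_mul]
      exact perm_mul n d g.1 h.1 (gam_le n d hd h h1).1.1 π ρ hπ hρ a j
    · rintro g - ⟨g1, π, hπ⟩
      refine ⟨Subgroup.inv_mem _ g1, π⁻¹, fun a j => ?_⟩
      have hi := (gam_le n d hd g g1).1.2.1
      set b := π⁻¹ a with hb
      have hab : a = π b := (Equiv.apply_symm_apply π a).symm
      have e : (dl n * (g⁻¹).1) a j - dl n b j =
          -(∑ k, ((dl n * g.1) b k - dl n (π b) k) * (g⁻¹).1 k j) := by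
        have e1 : ∑ k, (dl n * g.1) b k * (g⁻¹).1 k j = dl n b j := by
          rw [← Matrix.mul_apply, Matrix.mul_assoc, ← Units.val_mul, mul_inv_cancel,
            Units.val_one, Matrix.mul_one]
        simp only [sub_mul, Finset.sum_sub_distrib]
        rw [e1, hab, Matrix.mul_apply]
        ring
      rw [e]
      exact Cg_neg (Cg_sum _ _ fun k _ => Cg_mul (hπ b k) (hi k j))
  exact key.2

theorem dl_rad (n d : ℕ) (hn : 3 ≤ n) (hd : 3 ≤ d) (h : d ∣ n) (a : Fin n) :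
    (dl n *ᵥ rad n d) a = zeta d ^ (a : ℕ) := by
  have h1 : (dl n *ᵥ rad n d) a = ∑ b : Fin (n - 1), (fun b : ℕ =>
      (if (a : ℕ) = b then br d (b + 1) else 0) -
      (if (a : ℕ) = b + 1 then br d (b + 1) else 0)) (b : ℕ) := by
    rw [Matrix.mulVec, dotProduct]
    refine Finset.sum_congr rfl fun b _ => ?_
    simp only [dl, rad]
    split_ifs <;> first | ring1 | (exfalso; omega)
  rw [h1, Fin.sum_univ_eq_sum_range (fun b : ℕ =>
      (if (a : ℕ) = b then br d (b + 1) else 0) -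
      (if (a : ℕ) = b + 1 then br d (b + 1) else 0)) (n - 1), Finset.sum_sub_distrib,
    Finset.sum_ite_eq]
  have ha := a.2
  have h3 : ∑ b ∈ Finset.range (n - 1), (if (a : ℕ) = b + 1 then br d (b + 1) else 0) =
      br d a := by
    rcases Nat.eq_zero_or_pos (a : ℕ) with h0 | h0
    · rw [h0, br_zero]
      exact Finset.sum_eq_zero fun b _ => if_neg (by omega)
    · obtain ⟨c, hc⟩ := Nat.exists_eq_succ_of_ne_zero h0.ne'
      rw [hc]
      have : ∀ b : ℕ, (c.succ = b + 1) ↔ (c = b) := fun b => by omega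
      simp only [this]
      rw [Finset.sum_ite_eq, if_pos (Finset.mem_range.2 (by omega))]
  rw [h3]
  have h4 : br d ((a : ℕ) + 1) = br d a + zeta d ^ (a : ℕ) := Finset.sum_range_succ _ _
  by_cases h5 : (a : ℕ) < n - 1
  · rw [if_pos (Finset.mem_range.2 h5), h4]; ring
  · rw [if_neg (by rw [Finset.mem_range]; exact h5)]
    have h6 : (a : ℕ) + 1 = n := by omega
    rw [h6, br_zero_of_dvd n d hd h] at h4
    linear_combination h4

/-- The unipotent elements of the group are congruent to one modulo `1 - ζ` when `n ≥ 5`. -/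
theorem unip_cong (n d : ℕ) (hn : 5 ≤ n) (hd : 3 ≤ d) (h : d ∣ n) (γ : GL (Fin (n - 1)) ℂ)
    (hγ : γ ∈ Gam n d) (φ : Fin (n - 1) → ℂ) (e : γ.1 = 1 + vecMulVec (rad n d) φ)
    (j : Fin (n - 1)) : Cg d (φ j) := by
  obtain ⟨π, hπ⟩ := perm_all n d (by omega) γ hγ
  have hj := j.2
  set s : Finset (Fin n) := {⟨j, by omega⟩, ⟨j + 1, by omega⟩, π.symm ⟨j, by omega⟩,
    π.symm ⟨j + 1, by omega⟩} with hs
  obtain ⟨a, ha⟩ : ∃ a : Fin n, a ∉ s := by
    by_contra hcon
    push Not at hcon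
    have h1 : (Finset.univ : Finset (Fin n)) ⊆ s := fun a _ => hcon a
    have h2 := Finset.card_le_card h1
    rw [Finset.card_univ, Fintype.card_fin] at h2
    have h3 : s.card ≤ 4 := Finset.card_le_four
    omega
  rw [hs] at ha
  simp only [Finset.mem_insert, Finset.mem_singleton, not_or] at ha
  obtain ⟨a1, a2, a3, a4⟩ := ha
  have d1 : dl n a j = 0 := by
    simp only [dl]
    rw [if_neg fun h => a1 (Fin.ext h), if_neg fun h => a2 (Fin.ext h)]
  have d2 : dl n (π a) j = 0 := by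
    simp only [dl]
    rw [if_neg fun h => a3 (by rw [Equiv.eq_symm_apply]; exact Fin.ext h),
      if_neg fun h => a4 (by rw [Equiv.eq_symm_apply]; exact Fin.ext h)]
  have h5 := hπ a j
  rw [e, Matrix.mul_add, Matrix.mul_one, mul_vecMulVec, Matrix.add_apply, vecMulVec_apply, d1, d2,
    dl_rad n d (by omega) hd h, zero_add, sub_zero] at h5
  have h6 := Cg_mul h5 (Subring.pow_mem _ (zeta_inv_mem d (by omega)) (a : ℕ))
  have h7 : zeta d ^ (a : ℕ) * φ j * (zeta d)⁻¹ ^ (a : ℕ) = φ j := by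
    rw [mul_right_comm, ← mul_pow, mul_inv_cancel₀ (zeta_ne d), one_pow, one_mul]
  rwa [h7] at h6

end Pool.Agent.Burau938
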