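import Mathlib
import Pool.Agent.Burau938.Perm

set_option autoImplicit false

open Matrix

namespace Pool.Agent.Burau938

section abstract
variable {G : Type} [Group G] (u : ℕ → G)

/-- Partial products. -/
def sp : ℕ → G
  | 0 => 1
  | k + 1 => sp k * u k

variable (t : ℕ)

theorem sp_comm (hc : ∀ i j, i + 1 < j → j ≤ t → u i * u j = u j * u i) (k : ℕ) :
    ∀ i, k + 1 ≤ i → i ≤ t → sp u k * u i = u i * sp u k := by
  induction k with
  | zero => intro i _ _; simp [sp]
  | succ k ih =>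
    intro i hi ht
    show sp u k * u k * u i = u i * (sp u k * u k)
    rw [mul_assoc, hc k i (by omega) ht, ← mul_assoc, ih i (by omega) ht, mul_assoc]

theorem sp_shift (hc : ∀ i j, i + 1 < j → j ≤ t → u i * u j = u j * u i)
    (hb : ∀ i, i + 1 ≤ t → u i * u (i + 1) * u i = u (i + 1) * u i * u (i + 1)) (k : ℕ) :
    ∀ i, i + 1 < k → k ≤ t + 1 → sp u k * u i = u (i + 1) * sp u k := by
  induction k with
  | zero => intro i hi; omega
  | succ k ih =>
    intro i hi ht
    show sp u k * u k * u i = u (i + 1) * (sp u k * u k)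
    by_cases h : i + 1 = k
    · subst h
      show sp u i * u i * u (i + 1) * u i = u (i + 1) * (sp u i * u i * u (i + 1))
      have h1 := sp_comm u t hc i (i + 1) (by omega) (by omega)
      have h2 := hb i (by omega)
      calc sp u i * u i * u (i + 1) * u i = sp u i * (u i * u (i + 1) * u i) := by
            simp only [mul_assoc]
        _ = (sp u i * u (i + 1)) * (u i * u (i + 1)) := by rw [h2]; simp only [mul_assoc]
        _ = _ := by rw [h1]; simp only [mul_assoc]
    · rw [mul_assoc, ← hc i k (by omega) (by omega), ← mul_assoc, ih i (by omega) (by omega),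
        mul_assoc]

theorem sp_A (H : Subgroup G) (hc : ∀ i j, i + 1 < j → j ≤ t → u i * u j = u j * u i)
    (hb : ∀ i, i + 1 ≤ t → u i * u (i + 1) * u i = u (i + 1) * u i * u (i + 1))
    (hH : ∀ i, 1 ≤ i → i ≤ t → u i ∈ H) (h0 : u 0 * u 0 ∈ H) (k : ℕ) (hk : k ≤ t) :
    sp u k * (u k * u k) * (sp u k)⁻¹ ∈ H := by
  induction k with
  | zero => simpa [sp] using h0
  | succ k ih =>
    have h1 := ih (by omega)
    have hcomm := sp_comm u t hc k (k + 1) le_rfl hk
    have hbr := hb k hk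
    have e : sp u (k + 1) * (u (k + 1) * u (k + 1)) * (sp u (k + 1))⁻¹ =
        (u (k + 1))⁻¹ * (sp u k * (u k * u k) * (sp u k)⁻¹) * u (k + 1) := by
      have e1 : sp u (k + 1) = sp u k * u k := rfl
      have hcomm' : (sp u k)⁻¹ * u (k + 1) = u (k + 1) * (sp u k)⁻¹ := by
        rw [inv_mul_eq_iff_eq_mul, ← mul_assoc, hcomm, mul_assoc, mul_inv_cancel, mul_one]
      have e2 : u k * (u (k + 1) * u (k + 1)) * (u k)⁻¹ =
          (u (k + 1))⁻¹ * (u k * u k) * u (k + 1) := by
        have h5 : u (k + 1) * (u k * (u (k + 1) * u (k + 1))) =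
            (u k * u k) * (u (k + 1) * u k) := by
          calc u (k + 1) * (u k * (u (k + 1) * u (k + 1)))
              = (u (k + 1) * u k * u (k + 1)) * u (k + 1) := by simp only [mul_assoc]
            _ = (u k * u (k + 1) * u k) * u (k + 1) := by rw [hbr]
            _ = u k * (u (k + 1) * u k * u (k + 1)) := by simp only [mul_assoc]
            _ = u k * (u k * u (k + 1) * u k) := by rw [hbr]
            _ = (u k * u k) * (u (k + 1) * u k) := by simp only [mul_assoc]
        rw [mul_inv_eq_iff_eq_mul]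
        calc u k * (u (k + 1) * u (k + 1))
            = (u (k + 1))⁻¹ * (u (k + 1) * (u k * (u (k + 1) * u (k + 1)))) := by
              rw [inv_mul_cancel_left]
          _ = (u (k + 1))⁻¹ * ((u k * u k) * (u (k + 1) * u k)) := by rw [h5]
          _ = _ := by simp only [mul_assoc]
      have hcomm2 : sp u k * (u (k + 1))⁻¹ = (u (k + 1))⁻¹ * sp u k := by
        rw [mul_inv_eq_iff_eq_mul, mul_assoc, hcomm, inv_mul_cancel_left]
      calc sp u (k + 1) * (u (k + 1) * u (k + 1)) * (sp u (k + 1))⁻¹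
          = sp u k * (u k * (u (k + 1) * u (k + 1)) * (u k)⁻¹) * (sp u k)⁻¹ := by
            rw [e1, _root_.mul_inv_rev]; simp only [mul_assoc]
        _ = (sp u k * (u (k + 1))⁻¹) * (u k * u k) * (u (k + 1) * (sp u k)⁻¹) := by
            rw [e2]; simp only [mul_assoc]
        _ = _ := by rw [hcomm2, ← hcomm']; simp only [mul_assoc]
    rw [e]
    exact H.mul_mem (H.mul_mem (H.inv_mem (hH _ (by omega) hk)) h1) (hH _ (by omega) hk)

theorem coset_cover (H : Subgroup G) (hc : ∀ i j, i + 1 < j → j ≤ t → u i * u j = u j * u i)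
    (hb : ∀ i, i + 1 ≤ t → u i * u (i + 1) * u i = u (i + 1) * u i * u (i + 1))
    (hH : ∀ i, 1 ≤ i → i ≤ t → u i ∈ H) (h0 : u 0 * u 0 ∈ H) (g : G)
    (hg : g ∈ Subgroup.closure {x | ∃ i, i ≤ t ∧ x = u i}) :
    ∃ k, k ≤ t + 1 ∧ ∃ h ∈ H, g = h * sp u k := by
  have step : ∀ k, k ≤ t + 1 → ∀ i, i ≤ t →
      (∃ k', k' ≤ t + 1 ∧ ∃ h ∈ H, sp u k * u i = h * sp u k') ∧
      (∃ k', k' ≤ t + 1 ∧ ∃ h ∈ H, sp u k * (u i)⁻¹ = h * sp u k') := by
    intro k hk i hi
    rcases lt_trichotomy i k with h | h | h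
    · by_cases h2 : i + 1 = k
      · subst h2
        constructor
        · refine ⟨i, by omega, _, sp_A u t H hc hb hH h0 i hi, ?_⟩
          show sp u i * u i * u i = _
          simp only [mul_assoc, inv_mul_cancel, mul_one]
        · refine ⟨i, by omega, 1, H.one_mem, ?_⟩
          show sp u i * u i * (u i)⁻¹ = _
          rw [mul_inv_cancel_right, one_mul]
      · have h3 := sp_shift u t hc hb k i (by omega) hk
        constructor
        · exact ⟨k, hk, _, hH (i + 1) (by omega) (by omega), h3⟩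
        · refine ⟨k, hk, _, H.inv_mem (hH (i + 1) (by omega) (by omega)), ?_⟩
          rw [mul_inv_eq_iff_eq_mul, mul_assoc, h3, inv_mul_cancel_left]
    · subst h
      constructor
      · exact ⟨i + 1, by omega, 1, H.one_mem, by rw [one_mul]; rfl⟩
      · refine ⟨i + 1, by omega, _, H.inv_mem (sp_A u t H hc hb hH h0 i hi), ?_⟩
        show sp u i * (u i)⁻¹ = _ * (sp u i * u i)
        group
    · have h3 := sp_comm u t hc k i (by omega) hi
      constructor
      · exact ⟨k, hk, _, hH i (by omega) hi, h3⟩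
      · refine ⟨k, hk, _, H.inv_mem (hH i (by omega) hi), ?_⟩
        rw [mul_inv_eq_iff_eq_mul, mul_assoc, h3, inv_mul_cancel_left]
  refine Subgroup.closure_induction_right (p := fun g _ => ∃ k, k ≤ t + 1 ∧ ∃ h ∈ H, g = h * sp u k)
    ?_ ?_ ?_ hg
  · exact ⟨0, by omega, 1, H.one_mem, by simp [sp]⟩
  · rintro x - y ⟨i, hi, rfl⟩ ⟨k, hk, h, hh, rfl⟩
    obtain ⟨k', hk', h', hh', e⟩ := (step k hk i hi).1
    exact ⟨k', hk', h * h', H.mul_mem hh hh', by rw [mul_assoc, e, mul_assoc]⟩
  · rintro x - y ⟨i, hi, rfl⟩ ⟨k, hk, h, hh, rfl⟩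
    obtain ⟨k', hk', h', hh', e⟩ := (step k hk i hi).2
    exact ⟨k', hk', h * h', H.mul_mem hh hh', by rw [mul_assoc, e, mul_assoc]⟩

end abstract

/-! ### Braid relations -/

theorem PP (n d : ℕ) (i j : Fin (n - 1)) :
    (Matrix.single i i 1 * M n d) * (Matrix.single j j 1 * M n d) =
      (M n d i j) • (Matrix.single i j (1 : ℂ) * M n d) := by
  rw [← Matrix.mul_assoc, Matrix.single_mul_mul_single]
  rw [← Matrix.smul_mul, Matrix.smul_single, smul_eq_mul]
  simp

theorem PPP (n d : ℕ) (i j k : Fin (n - 1)) :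
    (Matrix.single i j 1 * M n d) * (Matrix.single k k 1 * M n d) =
      (M n d j k) • (Matrix.single i k (1 : ℂ) * M n d) := by
  rw [← Matrix.mul_assoc, Matrix.single_mul_mul_single]
  rw [← Matrix.smul_mul, Matrix.smul_single, smul_eq_mul]
  simp

/-- Generators indexed by natural numbers. -/
noncomputable def sg (n d i : ℕ) : GL (Fin (n - 1)) ℂ :=
  if h : i < n - 1 then sig n d ⟨i, h⟩ else 1

theorem sg_mem (n d i : ℕ) : sg n d i ∈ Gam n d := by
  unfold sg
  split_ifs
  · exact sig_mem n d _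
  · exact Subgroup.one_mem _

theorem sg_comm (n d i j : ℕ) (h : i + 1 < j) (hj : j < n - 1) :
    sg n d i * sg n d j = sg n d j * sg n d i := by
  have hi : i < n - 1 := by omega
  unfold sg
  rw [dif_pos hi, dif_pos hj]
  apply Units.ext
  rw [Units.val_mul, Units.val_mul]
  show sigma n d ⟨i, hi⟩ * sigma n d ⟨j, hj⟩ = sigma n d ⟨j, hj⟩ * sigma n d ⟨i, hi⟩
  have m1 : M n d ⟨i, hi⟩ ⟨j, hj⟩ = 0 := by
    simp only [M, Fin.ext_iff]
    rw [if_neg (by omega), if_neg (by omega), if_neg (by omega)]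
  have m2 : M n d ⟨j, hj⟩ ⟨i, hi⟩ = 0 := by
    simp only [M, Fin.ext_iff]
    rw [if_neg (by omega), if_neg (by omega), if_neg (by omega)]
  rw [sigma_eq, sigma_eq]
  have e1 := PP n d ⟨i, hi⟩ ⟨j, hj⟩
  have e2 := PP n d ⟨j, hj⟩ ⟨i, hi⟩
  rw [m1, zero_smul] at e1
  rw [m2, zero_smul] at e2
  simp only [sub_mul, mul_sub, one_mul, mul_one, e1, e2]
  abel

theorem sg_braid (n d i : ℕ) (h : i + 1 < n - 1) :
    sg n d i * sg n d (i + 1) * sg n d i = sg n d (i + 1) * sg n d i * sg n d (i + 1) := by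
  have hi : i < n - 1 := by omega
  unfold sg
  rw [dif_pos hi, dif_pos h]
  apply Units.ext
  simp only [Units.val_mul]
  show sigma n d ⟨i, hi⟩ * sigma n d ⟨i + 1, h⟩ * sigma n d ⟨i, hi⟩ =
    sigma n d ⟨i + 1, h⟩ * sigma n d ⟨i, hi⟩ * sigma n d ⟨i + 1, h⟩
  have m1 : M n d ⟨i, hi⟩ ⟨i + 1, h⟩ = -1 := by
    simp only [M, Fin.ext_iff]
    rw [if_neg (by omega), if_pos trivial]
  have m2 : M n d ⟨i + 1, h⟩ ⟨i, hi⟩ = -zeta d := by
    simp only [M, Fin.ext_iff]
    rw [if_neg (by omega), if_neg (by omega), if_pos trivial]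
  have m3 : ∀ x, M n d x x = 1 + zeta d := fun x => by simp [M]
  rw [sigma_eq, sigma_eq]
  set A := Matrix.single (⟨i, hi⟩ : Fin (n - 1)) ⟨i, hi⟩ (1 : ℂ) * M n d with hA
  set B := Matrix.single (⟨i + 1, h⟩ : Fin (n - 1)) ⟨i + 1, h⟩ (1 : ℂ) * M n d with hB
  have aa : A * A = (1 + zeta d) • A := by rw [hA, PP, m3]
  have bb : B * B = (1 + zeta d) • B := by rw [hB, PP, m3]
  have aba : A * B * A = zeta d • A := by
    rw [hA, hB, PP, m1, Matrix.smul_mul, PPP, m2, smul_smul]
    congr 1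
    ring
  have bab : B * A * B = zeta d • B := by
    rw [hA, hB, PP, m2, Matrix.smul_mul, PPP, m1, smul_smul]
    congr 1
    ring
  have l1 : (1 - A) * (1 - B) * (1 - A) = 1 - A - A - B + A * B + B * A + A * A - A * B * A := by
    noncomm_ring
  have l2 : (1 - B) * (1 - A) * (1 - B) = 1 - B - B - A + B * A + A * B + B * B - B * A * B := by
    noncomm_ring
  rw [l1, l2, aa, bb, aba, bab]
  module

end Pool.Agent.Burau938
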