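import Mathlib
import Pool.Agent.Burau938.Coset

set_option autoImplicit false

open Matrix

namespace Pool.Agent.Burau938

/-- Cyclically permuted vectors for the first `m + 1` strands. -/
noncomputable def fm (n m j : ℕ) : Fin (n - 1) → ℂ := if j < m then ee n j else -sE n m

theorem R_step (n d m : ℕ) (hm : m + 2 ≤ n) (j : ℕ) (hj : j < m) :
    (P n d m).1 *ᵥ fm n m j = zeta d • fm n m (j + 1) := by
  obtain ⟨ha, hb, -, -⟩ := P_act n d m hm
  unfold fm
  rw [if_pos hj]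
  by_cases h : j + 1 < m
  · rw [if_pos h]
    exact ha j h
  · rw [if_neg h, hb j (by omega)]
    module

theorem R_last (n d m : ℕ) (hm : m + 1 + 2 ≤ n) :
    (P n d (m + 1)).1 *ᵥ fm n (m + 1) (m + 1) = zeta d • fm n (m + 1) 0 := by
  obtain ⟨ha, hb, -, -⟩ := P_act n d (m + 1) hm
  unfold fm
  rw [if_neg (by omega), if_pos (by omega)]
  have h1 : (P n d (m + 1)).1 *ᵥ sE n (m + 1) = -zeta d • ee n 0 := by
    have h2 : sE n (m + 1) = ∑ i ∈ Finset.range m, ee n (i + 1) + ee n 0 :=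
      Finset.sum_range_succ' _ _
    have h3 : (P n d (m + 1)).1 *ᵥ (∑ i ∈ Finset.range m, ee n i) =
        zeta d • ∑ i ∈ Finset.range m, ee n (i + 1) := by
      rw [Matrix.mulVec_sum, Finset.smul_sum]
      exact Finset.sum_congr rfl fun i hi => ha i (by have := Finset.mem_range.1 hi; omega)
    have h4 : sE n (m + 1) = ∑ i ∈ Finset.range m, ee n i + ee n m :=
      Finset.sum_range_succ _ _
    conv_lhs => rw [h4]
    rw [Matrix.mulVec_add, h3, hb m rfl, h2]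
    module
  rw [Matrix.mulVec_neg, h1]
  module

theorem R_pow0 (n d m : ℕ) (hm : m + 2 ≤ n) (k : ℕ) (hk : k ≤ m) :
    ((P n d m) ^ k).1 *ᵥ fm n m 0 = zeta d ^ k • fm n m k := by
  induction k with
  | zero => simp
  | succ k ih =>
    rw [pow_succ', Units.val_mul, ← Matrix.mulVec_mulVec, ih (by omega), Matrix.mulVec_smul,
      R_step n d m hm k (by omega), smul_smul, pow_succ]

theorem R_zero (n d m : ℕ) (hm : m + 1 + 2 ≤ n) :
    ((P n d (m + 1)) ^ (m + 2)).1 *ᵥ fm n (m + 1) 0 = zeta d ^ (m + 2) • fm n (m + 1) 0 := by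
  have h1 := R_pow0 n d (m + 1) hm (m + 1) le_rfl
  have h2 := R_last n d m hm
  rw [pow_succ', Units.val_mul, ← Matrix.mulVec_mulVec, h1, Matrix.mulVec_smul, h2, smul_smul]
  rfl

theorem R_ee (n d m : ℕ) (hm : m + 1 + 2 ≤ n) (j : ℕ) (hj : j < m + 1) :
    ((P n d (m + 1)) ^ (m + 2)).1 *ᵥ ee n j = zeta d ^ (m + 2) • ee n j := by
  have hz : zeta d ^ j ≠ 0 := pow_ne_zero _ (zeta_ne d)
  have h1 := R_pow0 n d (m + 1) hm j hj.le
  have h0 : fm n (m + 1) j = ee n j := by unfold fm; rw [if_pos hj]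
  rw [h0] at h1
  have h2 : ((P n d (m + 1)) ^ (m + 2)).1 *ᵥ (zeta d ^ j • ee n j) =
      zeta d ^ (m + 2) • (zeta d ^ j • ee n j) := by
    rw [← h1, Matrix.mulVec_mulVec]
    have hc : ((P n d (m + 1)) ^ (m + 2)).1 * ((P n d (m + 1)) ^ j).1 =
        ((P n d (m + 1)) ^ j).1 * ((P n d (m + 1)) ^ (m + 2)).1 := by
      rw [← Units.val_mul, ← Units.val_mul, ← pow_add, ← pow_add, add_comm (m + 2) j]
    rw [hc, ← Matrix.mulVec_mulVec, R_zero n d m hm, Matrix.mulVec_smul]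
  rw [Matrix.mulVec_smul, smul_comm] at h2
  exact smul_right_injective _ hz h2

/-- The full twist of the first `n - 2` strands. -/
noncomputable def E (n d : ℕ) : GL (Fin (n - 1)) ℂ := (P n d (n - 3)) ^ (n - 2)

theorem E_ee (n d : ℕ) (j : ℕ) (hj : j + 3 < n) :
    (E n d).1 *ᵥ ee n j = zeta d ^ (n - 2) • ee n j := by
  obtain ⟨m, hm⟩ : ∃ m, n = m + 4 := ⟨n - 4, by omega⟩
  have h := R_ee n d m (by omega) j (by omega)
  have e1 : n - 3 = m + 1 := by omega
  have e2 : n - 2 = m + 2 := by omega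
  unfold E
  rw [e1, e2]
  exact h

theorem E_top (n d : ℕ) (hn : 3 ≤ n) : (E n d).1 *ᵥ ee n (n - 2) = ee n (n - 2) := by
  obtain ⟨-, -, -, h⟩ := P_act n d (n - 3) (by omega)
  have h1 := h (n - 2) (by omega) (by omega)
  have h2 : ∀ k : ℕ, ((P n d (n - 3)) ^ k).1 *ᵥ ee n (n - 2) = ee n (n - 2) := by
    intro k
    induction k with
    | zero => simp
    | succ k ih => rw [pow_succ, Units.val_mul, ← Matrix.mulVec_mulVec, h1, ih]
  exact h2 _

theorem E_mem (n d : ℕ) : E n d ∈ Gam n d := Subgroup.pow_mem _ (P_mem n d _) _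

theorem zpow_n (n d : ℕ) (hd : 3 ≤ d) (h : d ∣ n) : zeta d ^ n = 1 := by
  obtain ⟨k, rfl⟩ := h
  rw [pow_mul, zeta_pow d (by omega), one_pow]

theorem D_inv (n d : ℕ) (hn : 3 ≤ n) (hd : 3 ≤ d) (h : d ∣ n) :
    ((D n d)⁻¹).1 = zeta d • (1 : Matrix (Fin (n - 1)) (Fin (n - 1)) ℂ) +
      vecMulVec (rad n d) (-(zeta d * (1 - zeta d)) • Pi.single (lst n hn) 1) := by
  apply Units.inv_eq_of_mul_eq_one_right
  rw [mul_add, Matrix.mul_smul, mul_one, mul_vecMulVec, gam_rad n d hn hd h _ (D_mem n d),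
    D_eq n d hn hd h, vecMulVec_smul, smul_add, smul_smul, smul_smul, ← pow_succ',
    Nat.sub_add_cancel (by omega), zpow_n n d hd h]
  module

/-- `σ²` for the last generator agrees with `ζ² E` modulo the radical. -/
theorem sq_top (n d : ℕ) (hn : 3 ≤ n) (hd : 3 ≤ d) (h : d ∣ n) :
    ∃ ψ : Fin (n - 1) → ℂ, (sig n d (lst n hn)).1 * (sig n d (lst n hn)).1 =
      zeta d ^ 2 • (E n d).1 + vecMulVec (rad n d) ψ := by
  have hlast : lst n hn = ⟨n - 2, by omega⟩ := rfl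
  have hz := zeta_ne d
  have hz2 : 1 + zeta d ≠ 0 := by
    intro h1
    have h2 : zeta d ^ 2 = 1 := by
      have : zeta d = -1 := by linear_combination h1
      rw [this]; norm_num
    have hp : IsPrimitiveRoot (zeta d) d := Complex.isPrimitiveRoot_exp d (by omega)
    have := Nat.le_of_dvd (by omega) ((hp.pow_eq_one_iff_dvd 2).1 h2)
    omega
  set Y : Matrix (Fin (n - 1)) (Fin (n - 1)) ℂ :=
    (sig n d (lst n hn)).1 * (sig n d (lst n hn)).1 - zeta d ^ 2 • (E n d).1 with hY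
  have hσr := gam_rad n d hn hd h _ (sig_mem n d (lst n hn))
  have hEr := gam_rad n d hn hd h _ (E_mem n d)
  have y1 : ∀ j, j + 3 < n → Y *ᵥ ee n j = 0 := by
    intro j hj
    have h1 : (sig n d (lst n hn)).1 *ᵥ ee n j = ee n j :=
      sig_far n d (n - 2) j (by omega) (by omega) (by omega) (by omega) (by omega)
    rw [hY, Matrix.sub_mulVec, ← Matrix.mulVec_mulVec, h1, h1, Matrix.smul_mulVec, E_ee n d j hj,
      smul_smul, ← pow_add]
    have : 2 + (n - 2) = n := by omega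
    rw [this, zpow_n n d hd h, one_smul, sub_self]
  have y2 : Y *ᵥ ee n (n - 2) = 0 := by
    have h1 : (sig n d (lst n hn)).1 *ᵥ ee n (n - 2) = -zeta d • ee n (n - 2) :=
      sig_same n d (n - 2) (by omega)
    rw [hY, Matrix.sub_mulVec, ← Matrix.mulVec_mulVec, h1, Matrix.mulVec_smul, h1,
      Matrix.smul_mulVec, E_top n d hn, smul_smul]
    have : -zeta d * -zeta d = zeta d ^ 2 := by ring
    rw [this, sub_self]
  have y3 : Y *ᵥ rad n d = (1 - zeta d ^ 2) • rad n d := by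
    rw [hY, Matrix.sub_mulVec, ← Matrix.mulVec_mulVec, hσr, hσr, Matrix.smul_mulVec, hEr]
    module
  set p : Fin (n - 1) := ⟨n - 3, by omega⟩ with hp
  have hrp : rad n d p ≠ 0 := by
    have h1 : rad n d p = br d (n - 2) := by
      show br d (n - 3 + 1) = _
      congr 1
      omega
    have h2 := br_pred n d hn hd h
    have h3 : br d (n - 1) = br d (n - 2) + zeta d ^ (n - 2) := by
      have : n - 1 = n - 2 + 1 := by omega
      rw [this]
      exact Finset.sum_range_succ _ _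
    have h4 : zeta d ^ (n - 1) = zeta d ^ (n - 2) * zeta d := by
      rw [← pow_succ]
      congr 1
      omega
    rw [h1]
    have h5 : br d (n - 2) = -(zeta d ^ (n - 2) * (1 + zeta d)) := by
      rw [h3, h4] at h2
      linear_combination h2
    rw [h5]
    exact neg_ne_zero.2 (mul_ne_zero (pow_ne_zero _ hz) hz2)
  have y4 : ∀ a j, j ≠ p → Y a j = 0 := by
    intro a j hj
    have hj' : (j : ℕ) ≠ n - 3 := fun h1 => hj (Fin.ext h1)
    have hj2 := j.2
    by_cases h1 : (j : ℕ) + 3 < n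
    · have h2 := congrFun (y1 j h1) a
      rw [mulVec_ee n j j.2] at h2
      exact h2
    · have h3 : (j : ℕ) = n - 2 := by omega
      have h2 := congrFun y2 a
      rw [mulVec_ee n (n - 2) (by omega)] at h2
      have h4 : j = ⟨n - 2, by omega⟩ := Fin.ext h3
      rw [h4]
      exact h2
  refine ⟨Pi.single p ((1 - zeta d ^ 2) / rad n d p), ?_⟩
  have h6 : Y = vecMulVec (rad n d) (Pi.single p ((1 - zeta d ^ 2) / rad n d p)) := by
    ext a j
    rw [vecMulVec_apply]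
    by_cases hj : j = p
    · rw [hj, Pi.single_eq_same]
      have h7 := congrFun y3 a
      rw [Matrix.mulVec, dotProduct, Finset.sum_eq_single p, Pi.smul_apply, smul_eq_mul] at h7
      · field_simp
        linear_combination h7
      · intro b _ hb
        rw [y4 a b hb, zero_mul]
      · intro hb
        exact absurd (Finset.mem_univ _) hb
    · rw [Pi.single_eq_of_ne hj, mul_zero, y4 a j hj]
  rw [← h6, hY]
  abel

/-- The subgroup generated by all generators but the last one. -/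
noncomputable def Nn (n d : ℕ) : Subgroup (GL (Fin (n - 1)) ℂ) :=
  Subgroup.closure {g | ∃ i : Fin (n - 1), (i : ℕ) + 2 < n ∧
    (g : Matrix (Fin (n - 1)) (Fin (n - 1)) ℂ) = sigma n d i}

theorem Nn_le (n d : ℕ) : Nn n d ≤ Gam n d :=
  Subgroup.closure_mono fun _ ⟨i, _, hi⟩ => ⟨i, hi⟩

theorem sg_mem_N (n d i : ℕ) (h : i + 2 < n) : sg n d i ∈ Nn n d := by
  have hi : i < n - 1 := by omega
  unfold sg
  rw [dif_pos hi]
  exact Subgroup.subset_closure ⟨⟨i, hi⟩, h, rfl⟩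

theorem P_mem_N (n d k : ℕ) (h : k + 2 ≤ n) : P n d k ∈ Nn n d := by
  induction k with
  | zero => exact Subgroup.one_mem _
  | succ k ih =>
    exact Subgroup.mul_mem _ (ih (by omega)) (sg_mem_N n d k (by omega))

/-- Elements of the group congruent to an element of `Nn` modulo the radical. -/
noncomputable def Nh (n d : ℕ) (hn : 3 ≤ n) (hd : 3 ≤ d) (h : d ∣ n) :
    Subgroup (GL (Fin (n - 1)) ℂ) where
  carrier := {g | g ∈ Gam n d ∧ ∃ ν ∈ Nn n d, ∃ ψ : Fin (n - 1) → ℂ,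
    g.1 = ν.1 + vecMulVec (rad n d) ψ}
  one_mem' := ⟨Subgroup.one_mem _, 1, Subgroup.one_mem _, 0, by simp⟩
  mul_mem' := by
    rintro g1 g2 ⟨h1, ν1, n1, ψ1, e1⟩ ⟨h2, ν2, n2, ψ2, e2⟩
    refine ⟨Subgroup.mul_mem _ h1 h2, ν1 * ν2, Subgroup.mul_mem _ n1 n2,
      ψ2 + ψ1 ᵥ* ν2.1 + (ψ1 ⬝ᵥ rad n d) • ψ2, ?_⟩
    rw [Units.val_mul, Units.val_mul, e1, e2, mul_add, add_mul, add_mul, vecMulVec_mul,
      mul_vecMulVec, gam_rad n d hn hd h ν1 (Nn_le n d n1), vecMulVec_mul_vecMulVec, vecMulVec_add,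
      vecMulVec_add]
    abel
  inv_mem' := by
    rintro g ⟨h1, ν, n1, ψ, e⟩
    refine ⟨Subgroup.inv_mem _ h1, ν⁻¹, Subgroup.inv_mem _ n1, -(ψ ᵥ* (g⁻¹).1), ?_⟩
    apply Units.inv_eq_of_mul_eq_one_left
    have hgi : (g⁻¹).1 * g.1 = 1 := by rw [← Units.val_mul, inv_mul_cancel, Units.val_one]
    have hνi : (ν⁻¹).1 * ν.1 = 1 := by rw [← Units.val_mul, inv_mul_cancel, Units.val_one]
    rw [add_mul, vecMulVec_mul, Matrix.neg_vecMul, Matrix.vecMul_vecMul, hgi, Matrix.vecMul_one, e,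
      mul_add, mul_vecMulVec, gam_rad n d hn hd h _ (Subgroup.inv_mem _ (Nn_le n d n1)), hνi,
      vecMulVec_neg]
    abel

theorem top_sq_mem (n d : ℕ) (hn : 3 ≤ n) (hd : 3 ≤ d) (h : d ∣ n) :
    sg n d (n - 2) * sg n d (n - 2) ∈ Nh n d hn hd h := by
  refine ⟨Subgroup.mul_mem _ (sg_mem n d _) (sg_mem n d _), ?_⟩
  have hDN : D n d ∈ Nn n d := Subgroup.pow_mem _ (P_mem_N n d _ (by omega)) _
  have hEN : E n d ∈ Nn n d := Subgroup.pow_mem _ (P_mem_N n d _ (by omega)) _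
  obtain ⟨ψ, hψ⟩ := sq_top n d hn hd h
  have hsg : sg n d (n - 2) = sig n d (lst n hn) := by
    unfold sg
    rw [dif_pos (by omega)]
    rfl
  set α : Fin (n - 1) → ℂ := -(zeta d * (1 - zeta d)) • Pi.single (lst n hn) 1 with hα
  have hDi := D_inv n d hn hd h
  rw [← hα] at hDi
  have hDr := gam_rad n d hn hd h _ (Subgroup.inv_mem _ (D_mem n d))
  refine ⟨(D n d)⁻¹ * ((D n d)⁻¹ * E n d), Subgroup.mul_mem _ (Subgroup.inv_mem _ hDN)
    (Subgroup.mul_mem _ (Subgroup.inv_mem _ hDN) hEN),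
    ψ - (zeta d • (α ᵥ* (E n d).1) + α ᵥ* (E n d).1), ?_⟩
  have e1 : ((D n d)⁻¹ * E n d).1 = zeta d • (E n d).1 +
      vecMulVec (rad n d) (α ᵥ* (E n d).1) := by
    rw [Units.val_mul, hDi, add_mul, Matrix.smul_mul, one_mul, vecMulVec_mul]
  have e2 : ((D n d)⁻¹ * ((D n d)⁻¹ * E n d)).1 = zeta d ^ 2 • (E n d).1 +
      vecMulVec (rad n d) (zeta d • (α ᵥ* (E n d).1) + α ᵥ* (E n d).1) := by
    rw [Units.val_mul, e1, mul_add, mul_vecMulVec, hDr, Matrix.mul_smul]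
    have e3 : ((D n d)⁻¹).1 * (E n d).1 = zeta d • (E n d).1 +
      vecMulVec (rad n d) (α ᵥ* (E n d).1) := by rw [← Units.val_mul]; exact e1
    rw [e3, vecMulVec_add, vecMulVec_smul]
    module
  rw [hsg, Units.val_mul, hψ, e2, vecMulVec_sub]
  abel

/-- The elements `σ_{n-1} σ_{n-2} ⋯` (`k` factors). -/
noncomputable def sk (n d k : ℕ) : GL (Fin (n - 1)) ℂ := sp (fun i => sg n d (n - 2 - i)) k

theorem cover (n d : ℕ) (hn : 3 ≤ n) (hd : 3 ≤ d) (h : d ∣ n) (g : GL (Fin (n - 1)) ℂ)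
    (hg : g ∈ Gam n d) : ∃ k, k < n ∧ ∃ ν ∈ Nn n d, ∃ ψ : Fin (n - 1) → ℂ,
      g.1 = (ν * sk n d k).1 + vecMulVec (rad n d) ψ := by
  have hg' : g ∈ Subgroup.closure {x | ∃ i, i ≤ n - 2 ∧ x = (fun i => sg n d (n - 2 - i)) i} := by
    refine Subgroup.closure_mono ?_ hg
    rintro x ⟨i, hi⟩
    have hi2 := i.2
    refine ⟨n - 2 - i, by omega, ?_⟩
    have : n - 2 - (n - 2 - (i : ℕ)) = i := by omega
    show x = sg n d (n - 2 - (n - 2 - i))
    rw [this]
    unfold sg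
    rw [dif_pos hi2]
    exact Units.ext hi
  have c1 : ∀ i j, i + 1 < j → j ≤ n - 2 → (fun i => sg n d (n - 2 - i)) i *
      (fun i => sg n d (n - 2 - i)) j = (fun i => sg n d (n - 2 - i)) j *
      (fun i => sg n d (n - 2 - i)) i := by
    intro i j hij hj
    exact (sg_comm n d (n - 2 - j) (n - 2 - i) (by omega) (by omega)).symm
  have c2 : ∀ i, i + 1 ≤ n - 2 → (fun i => sg n d (n - 2 - i)) i *
      (fun i => sg n d (n - 2 - i)) (i + 1) * (fun i => sg n d (n - 2 - i)) i =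
      (fun i => sg n d (n - 2 - i)) (i + 1) * (fun i => sg n d (n - 2 - i)) i *
      (fun i => sg n d (n - 2 - i)) (i + 1) := by
    intro i hi
    have h1 := sg_braid n d (n - 2 - (i + 1)) (by omega)
    have h2 : n - 2 - (i + 1) + 1 = n - 2 - i := by omega
    rw [h2] at h1
    exact h1.symm
  have c3 : ∀ i, 1 ≤ i → i ≤ n - 2 → (fun i => sg n d (n - 2 - i)) i ∈ Nh n d hn hd h := by
    intro i hi hi2
    have hN := sg_mem_N n d (n - 2 - i) (by omega)
    exact ⟨Nn_le n d hN, _, hN, 0, by simp⟩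
  have c4 : (fun i => sg n d (n - 2 - i)) 0 * (fun i => sg n d (n - 2 - i)) 0 ∈
      Nh n d hn hd h := top_sq_mem n d hn hd h
  obtain ⟨k, hk, h', ⟨-, ν, hν, ψ, e⟩, he⟩ := coset_cover (fun i => sg n d (n - 2 - i)) (n - 2)
    (Nh n d hn hd h) c1 c2 c3 c4 g hg'
  refine ⟨k, by omega, ν, hν, ψ ᵥ* (sk n d k).1, ?_⟩
  rw [he, Units.val_mul, Units.val_mul, e, add_mul, vecMulVec_mul]
  rfl

theorem sp_mem_gam (n d k : ℕ) : sk n d k ∈ Gam n d := by
  unfold sk
  induction k with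
  | zero => exact Subgroup.one_mem _
  | succ k ih => exact Subgroup.mul_mem _ ih (sg_mem n d _)

/-- Exact description for `d ∣ n`, `n ≥ 5`. -/
theorem exact (n d : ℕ) (hn : 5 ≤ n) (hd : 3 ≤ d) (h : d ∣ n) (g : GL (Fin (n - 1)) ℂ) :
    g ∈ Gam n d ↔ ∃ k, k < n ∧ ∃ ν ∈ Nn n d, ∃ ψ : Fin (n - 1) → ℂ,
      (∀ j, ∃ y ∈ R d, ψ j = (1 - zeta d) * y) ∧ g.1 *ᵥ rad n d = rad n d ∧
      g.1 = (ν * sk n d k).1 + vecMulVec (rad n d) ψ := by
  have hr0 : rad n d ⟨0, by omega⟩ = 1 := by simp [rad, br]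
  constructor
  · intro hg
    obtain ⟨k, hk, ν, hν, ψ, e⟩ := cover n d (by omega) hd h g hg
    refine ⟨k, hk, ν, hν, ψ, ?_, gam_rad n d (by omega) hd h g hg, e⟩
    have hw : ν * sk n d k ∈ Gam n d := Subgroup.mul_mem _ (Nn_le n d hν) (sp_mem_gam n d k)
    have hwr := gam_rad n d (by omega) hd h _ (Subgroup.inv_mem _ hw)
    refine fun j => unip_cong n d hn hd h ((ν * sk n d k)⁻¹ * g)
      (Subgroup.mul_mem _ (Subgroup.inv_mem _ hw) hg) ψ ?_ j
    rw [Units.val_mul, e, mul_add, mul_vecMulVec, hwr, ← Units.val_mul, inv_mul_cancel,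
      Units.val_one]
  · rintro ⟨k, hk, ν, hν, ψ, hψ, hgr, e⟩
    have hw : ν * sk n d k ∈ Gam n d := Subgroup.mul_mem _ (Nn_le n d hν) (sp_mem_gam n d k)
    have hwr := gam_rad n d (by omega) hd h _ hw
    choose φ hφ hφe using hψ
    have hψφ : ψ = (1 - zeta d) • φ := by
      ext j
      rw [hφe j, Pi.smul_apply, smul_eq_mul]
    have hψr : ψ ⬝ᵥ rad n d = 0 := by
      have h1 := hgr
      rw [e, Matrix.add_mulVec, hwr] at h1
      have h2 := congrFun h1 ⟨0, by omega⟩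
      rw [Pi.add_apply, hr0, add_eq_left, Matrix.mulVec, dotProduct] at h2
      rw [dotProduct, ← h2]
      refine Finset.sum_congr rfl fun j _ => ?_
      rw [vecMulVec_apply, hr0, one_mul]
    have hφr : φ ⬝ᵥ rad n d = 0 := by
      rw [hψφ, smul_dotProduct, smul_eq_mul] at hψr
      exact (mul_eq_zero.1 hψr).resolve_left (sub_ne_zero.2 (zeta_ne_one d hd).symm)
    obtain ⟨δ, hδ, hδe⟩ := unip_weak n d (by omega) hd h φ hφ hφr
    have : g = ν * sk n d k * δ := by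
      apply Units.ext
      rw [Units.val_mul (ν * sk n d k) δ, hδe, mul_add, mul_one, Matrix.mul_smul, mul_vecMulVec,
        hwr, e, hψφ, vecMulVec_smul]
    rw [this]
    exact Subgroup.mul_mem _ hw hδ

end Pool.Agent.Burau938
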