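import Mathlib
import Pool.Agent.Burau938.Quot

set_option autoImplicit false

open Matrix

namespace Pool.Agent.Burau938

/-- `g` is block upper triangular with upper left block `μ` and lower left block `0`. -/
def BF {m : ℕ} (g : Matrix (Fin (m + 1)) (Fin (m + 1)) ℂ) (μ : Matrix (Fin m) (Fin m) ℂ) : Prop :=
  (∀ a b : Fin m, g a.castSucc b.castSucc = μ a b) ∧ ∀ b : Fin m, g (Fin.last m) b.castSucc = 0

theorem BF_one (m : ℕ) : BF (1 : Matrix (Fin (m + 1)) (Fin (m + 1)) ℂ) 1 := by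
  refine ⟨fun a b => ?_, fun b => ?_⟩
  · simp [Matrix.one_apply]
  · rw [Matrix.one_apply_ne]
    exact (Fin.castSucc_lt_last b).ne'

theorem BF_mul {m : ℕ} {g h : Matrix (Fin (m + 1)) (Fin (m + 1)) ℂ}
    {μ ν : Matrix (Fin m) (Fin m) ℂ} (h1 : BF g μ) (h2 : BF h ν) : BF (g * h) (μ * ν) := by
  refine ⟨fun a b => ?_, fun b => ?_⟩
  · rw [Matrix.mul_apply, Fin.sum_univ_castSucc, h2.2, mul_zero, add_zero, Matrix.mul_apply]
    exact Finset.sum_congr rfl fun k _ => by rw [h1.1, h2.1]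
  · rw [Matrix.mul_apply, Fin.sum_univ_castSucc, h2.2, mul_zero, add_zero]
    exact Finset.sum_eq_zero fun k _ => by rw [h1.2, zero_mul]

theorem BF_inv {m : ℕ} {g g' : Matrix (Fin (m + 1)) (Fin (m + 1)) ℂ}
    {μ μ' : Matrix (Fin m) (Fin m) ℂ} (h1 : BF g μ) (hg : g' * g = 1) (hμ : μ * μ' = 1) :
    BF g' μ' := by
  have key : ∀ a b, ∑ k : Fin m, g' a k.castSucc * μ k b =
      (1 : Matrix (Fin (m + 1)) (Fin (m + 1)) ℂ) a (Fin.castSucc b) := by
    intro a b
    have h2 := congrFun (congrFun hg a) b.castSucc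
    rw [Matrix.mul_apply, Fin.sum_univ_castSucc, h1.2, mul_zero, add_zero] at h2
    rw [← h2]
    exact Finset.sum_congr rfl fun k _ => by rw [h1.1]
  have key2 : ∀ a c, g' a (Fin.castSucc c) = ∑ b : Fin m,
      (1 : Matrix (Fin (m + 1)) (Fin (m + 1)) ℂ) a (Fin.castSucc b) * μ' b c := by
    intro a c
    simp only [← key]
    simp only [Finset.sum_mul]
    rw [Finset.sum_comm]
    have h3 : ∀ k : Fin m, ∑ b, g' a k.castSucc * μ k b * μ' b c =
        g' a k.castSucc * (1 : Matrix (Fin m) (Fin m) ℂ) k c := by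
      intro k
      rw [← hμ, Matrix.mul_apply, Finset.mul_sum]
      exact Finset.sum_congr rfl fun b _ => by ring
    simp only [h3]
    simp [Matrix.one_apply]
  refine ⟨fun a b => ?_, fun b => ?_⟩
  · rw [key2]
    simp [Matrix.one_apply]
  · rw [key2]
    refine Finset.sum_eq_zero fun k _ => ?_
    rw [Matrix.one_apply_ne (Fin.castSucc_lt_last k).ne', zero_mul]

theorem BF_sigma (m d : ℕ) (i : Fin m) :
    BF (sigma (m + 2) d i.castSucc) (sigma (m + 1) d i) := by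
  have hi := i.2
  refine ⟨fun a b => ?_, fun b => ?_⟩
  · simp only [sigma, Fin.ext_iff, Fin.val_castSucc]
  · have hb := b.2
    simp only [sigma, Fin.ext_iff, Fin.val_castSucc, Fin.val_last]
    rw [if_neg (by omega), if_neg (by omega)]

theorem N_to (m d : ℕ) (g : GL (Fin (m + 2 - 1)) ℂ) (hg : g ∈ Nn (m + 2) d) :
    ∃ μ ∈ Gam (m + 1) d, BF (m := m) g.1 μ.1 := by
  refine Subgroup.closure_induction (p := fun g _ => ∃ μ ∈ Gam (m + 1) d, BF (m := m) g.1 μ.1)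
    ?_ ?_ ?_ ?_ hg
  · rintro g ⟨i, hi, e⟩
    have him : (i : ℕ) < m := by omega
    refine ⟨sig (m + 1) d ⟨i, him⟩, sig_mem (m + 1) d _, ?_⟩
    rw [e]
    exact BF_sigma m d ⟨i, him⟩
  · exact ⟨1, Subgroup.one_mem _, BF_one m⟩
  · rintro g h - - ⟨μ, hμ, e1⟩ ⟨ν, hν, e2⟩
    exact ⟨μ * ν, Subgroup.mul_mem _ hμ hν, BF_mul e1 e2⟩
  · rintro g - ⟨μ, hμ, e1⟩
    refine ⟨μ⁻¹, Subgroup.inv_mem _ hμ, BF_inv e1 ?_ ?_⟩
    · exact congrArg Units.val (inv_mul_cancel g)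
    · exact congrArg Units.val (mul_inv_cancel μ)

theorem N_from (m d : ℕ) (μ : GL (Fin (m + 1 - 1)) ℂ) (hμ : μ ∈ Gam (m + 1) d) :
    ∃ ν ∈ Nn (m + 2) d, BF (m := m) ν.1 μ.1 := by
  refine Subgroup.closure_induction (p := fun μ _ => ∃ ν ∈ Nn (m + 2) d, BF (m := m) ν.1 μ.1)
    ?_ ?_ ?_ ?_ hμ
  · rintro μ ⟨i, e⟩
    refine ⟨sig (m + 2) d (Fin.castSucc (n := m) i), Subgroup.subset_closure
      ⟨Fin.castSucc (n := m) i, ?_, rfl⟩, ?_⟩
    · have := i.2
      show (i : ℕ) + 2 < m + 2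
      omega
    · rw [e]
      exact BF_sigma m d i
  · exact ⟨1, Subgroup.one_mem _, BF_one m⟩
  · rintro g h - - ⟨μ, hμ, e1⟩ ⟨ν, hν, e2⟩
    exact ⟨μ * ν, Subgroup.mul_mem _ hμ hν, BF_mul e1 e2⟩
  · rintro g - ⟨μ, hμ, e1⟩
    refine ⟨μ⁻¹, Subgroup.inv_mem _ hμ, BF_inv e1 ?_ ?_⟩
    · exact congrArg Units.val (inv_mul_cancel μ)
    · exact congrArg Units.val (mul_inv_cancel g)

/-- The subgroup `Nn` is the group `Γ_{n-1,d}` extended by the identity on the radical. -/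
theorem ident (m d : ℕ) (hm : 1 ≤ m) (hd : 3 ≤ d) (h : d ∣ m + 2) (g : GL (Fin (m + 2 - 1)) ℂ) :
    g ∈ Nn (m + 2) d ↔ g.1 *ᵥ rad (m + 2) d = rad (m + 2) d ∧
      ∃ μ ∈ Gam (m + 1) d, BF (m := m) g.1 μ.1 := by
  constructor
  · intro hg
    exact ⟨gam_rad (m + 2) d (by omega) hd h g (Nn_le _ _ hg), N_to m d g hg⟩
  · rintro ⟨hr, μ, hμ, e⟩
    obtain ⟨ν, hν, e'⟩ := N_from m d μ hμ
    have hνr := gam_rad (m + 2) d (by omega) hd h ν (Nn_le _ _ hν)
    have hcol : ∀ (a : Fin (m + 1)) (b : Fin m), g.1 a b.castSucc = ν.1 a b.castSucc := by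
      intro a b
      rcases Fin.eq_castSucc_or_eq_last a with ⟨a', rfl⟩ | rfl
      · rw [e.1, e'.1]
      · rw [e.2, e'.2]
    have hlast : rad (m + 2) d (Fin.last m) ≠ 0 := by
      have h1 := rad_lst (m + 2) d (by omega) hd h
      have h2 : lst (m + 2) (by omega) = Fin.last m := rfl
      rw [h2] at h1
      rw [h1]
      exact neg_ne_zero.2 (pow_ne_zero _ (zeta_ne d))
    have : g = ν := by
      apply Units.ext
      ext a b
      rcases Fin.eq_castSucc_or_eq_last (n := m) b with ⟨b', rfl⟩ | rfl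
      · exact hcol a b'
      · have h1 := congrFun hr a
        have h2 := congrFun hνr a
        rw [← h2] at h1
        change ∑ k : Fin (m + 1), g.1 a k * rad (m + 2) d k =
          ∑ k : Fin (m + 1), ν.1 a k * rad (m + 2) d k at h1
        rw [Fin.sum_univ_castSucc, Fin.sum_univ_castSucc] at h1
        have h3 : ∑ k : Fin m, g.1 a k.castSucc * rad (m + 2) d k.castSucc =
            ∑ k : Fin m, ν.1 a k.castSucc * rad (m + 2) d k.castSucc :=
          Finset.sum_congr rfl fun k _ => by rw [hcol a k]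
        rw [h3] at h1
        exact mul_right_cancel₀ hlast (add_left_cancel h1)
    rw [this]
    exact hν

end Pool.Agent.Burau938
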